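import Pool.Agent.Run7.h629.GroupRing

namespace Run7.h629

open Polynomial

attribute [local instance] finite_Mq projective_Mq

/-- Over a ring isomorphic to the integers all classes are multiples of the class of the ring. -/
lemma cls_mem_of_linear {A : Type} [CommRing A] {x : A} {r : ℤ}
    (h : PolyQuot A x (X - Polynomial.C r)) (N : Type) [AddCommGroup N] [Module A N]
    [Module.Finite A N] [Module.Projective A N] :
    K0.cls A N ∈ AddSubgroup.zmultiples (K0.cls A A) := by
  have hsurj : Function.Surjective (Int.castRingHom A) := by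
    intro a
    obtain ⟨g, rfl⟩ := h.surj a
    obtain ⟨k, hk⟩ := dvd_iff_isRoot.2 (show (g - Polynomial.C (g.eval r)).IsRoot r by simp)
    refine ⟨g.eval r, ?_⟩
    have h1 : aeval x (g - Polynomial.C (g.eval r)) = 0 := by
      rw [h.ker, hk]
      exact dvd_mul_right _ _
    rw [map_sub, aeval_C, sub_eq_zero] at h1
    rw [h1]
    rfl
  have hinj : Function.Injective (Int.castRingHom A) := by
    rw [injective_iff_map_eq_zero]
    intro n hn
    have h1 : aeval x (Polynomial.C n) = 0 := by
      rw [aeval_C]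
      exact hn
    rw [h.ker] at h1
    obtain ⟨k, hk⟩ := h1
    have := congrArg (Polynomial.eval r) hk
    simpa using this
  let e : ℤ ≃+* A := RingEquiv.ofBijective (Int.castRingHom A) ⟨hinj, hsurj⟩
  have i1 : IsDomain A := e.symm.toMulEquiv.isDomain ℤ
  have i2 : IsPrincipalIdealRing A := IsPrincipalIdealRing.of_surjective (Int.castRingHom A) hsurj
  have i3 : Module.Free A N := inferInstance
  let b := Module.finBasis A N
  rw [K0.cls_congr b.equivFun, K0.cls_free]
  exact ⟨_, rfl⟩

/-- The case of the trivial group. -/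
lemma euler_one {B : Type} [CommRing B] {x : B} (h : PolyQuot B x (X^1 - 1)) (C : ℕ → Type)
    [∀ n, AddCommGroup (C n)] [∀ n, Module B (C n)] [∀ n, Module.Finite B (C n)]
    [∀ n, Module.Projective B (C n)] (L : ℕ) :
    ∑ n ∈ Finset.range L, (-1 : ℤ)^n • K0.cls B (C n) ∈ AddSubgroup.zmultiples (K0.cls B B) := by
  have h' : PolyQuot B x (X - Polynomial.C 1) := by
    rw [map_one]
    rwa [pow_one] at h
  exact sum_mem (fun n _ => AddSubgroup.zsmul_mem _ (cls_mem_of_linear h' (C n)) _)

/-- The case of a group with two elements. -/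
lemma euler_two {B : Type} [CommRing B] {x : B} (h : PolyQuot B x (X^2 - 1)) (C : ℕ → Type)
    [∀ n, AddCommGroup (C n)] [∀ n, Module B (C n)] [∀ n, Module.Finite B (C n)]
    [∀ n, Module.Projective B (C n)] (L : ℕ) :
    ∑ n ∈ Finset.range L, (-1 : ℤ)^n • K0.cls B (C n) ∈ AddSubgroup.zmultiples (K0.cls B B) := by
  have h' : PolyQuot B x ((X - Polynomial.C 1) * geomP 1 2) := by
    have h2 := geomP_mul 1 2
    rw [pow_one] at h2
    rw [map_one, h2]
    exact h
  refine descend_poly 1 2 one_pos (by norm_num) 1 (one_pow _) h' C L ?_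
  have h3 : PolyQuot (B ⧸ Ideal.span {aeval x (geomP 1 2)}) (Ideal.Quotient.mk _ x)
      (X - Polynomial.C (-1)) := by
    have h4 : (X - Polynomial.C (-1) : ℤ[X]) = geomP 1 2 := by
      rw [geomP]
      simp [Finset.sum_range_succ, add_comm]
    rw [h4]
    exact h'.quot
  exact sum_mem (fun n _ => AddSubgroup.zsmul_mem _ (cls_mem_of_linear h3 _) _)

/-- The algebraic theorem for cyclic groups of order a prime power or twice a prime power. -/
theorem euler_cyclic {G : Type} [CommGroup G] [Finite G] (g : G)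
    (hg : ∀ y, y ∈ Subgroup.zpowers g)
    (hcard : ∃ p k : ℕ, p.Prime ∧ (Nat.card G = p^k ∨ Nat.card G = 2 * p^k))
    (C : ℕ → Type) [∀ n, AddCommGroup (C n)] [∀ n, Module (MonoidAlgebra ℤ G) (C n)]
    [∀ n, Module.Finite (MonoidAlgebra ℤ G) (C n)]
    [∀ n, Module.Projective (MonoidAlgebra ℤ G) (C n)] [Subsingleton (C 0)] (L : ℕ)
    (hL : ∀ n, L ≤ n → Subsingleton (C n)) (d : ∀ n, C (n+1) →ₗ[MonoidAlgebra ℤ G] C n)
    (s : ∀ n, C n →ₗ[MonoidAlgebra ℤ G] C (n+1)) (hdd : ∀ n y, d n (d (n+1) y) = 0)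
    (hds : ∀ n y, d (n+1) (s (n+1) y) + s n (d n y) =
      (MonoidAlgebra.single g (1 : ℤ) - 1) • y) :
    ∑ n ∈ Finset.range L, (-1 : ℤ)^n • K0.cls (MonoidAlgebra ℤ G) (C n) ∈
      AddSubgroup.zmultiples (K0.cls (MonoidAlgebra ℤ G) (MonoidAlgebra ℤ G)) := by
  have hPQ := polyQuot_groupRing g hg
  obtain ⟨p, k, hp, hc | hc⟩ := hcard
  · rcases Nat.eq_zero_or_pos k with rfl | hk
    · rw [pow_zero] at hc
      rw [hc] at hPQ
      exact euler_one hPQ C L
    · by_cases hp2 : p = 2
      · subst hp2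
        obtain ⟨j, rfl⟩ : ∃ j, k = j + 1 := ⟨k - 1, by omega⟩
        rcases Nat.eq_zero_or_pos j with rfl | hj
        · have h5 : Nat.card G = 2 := by rw [hc]; norm_num
          rw [h5] at hPQ
          exact euler_two hPQ C L
        · refine euler_even C L hL d s hdd hds 2 j hp hj ?_
          have h5 : Nat.card G = 2 * 2^j := by rw [hc, pow_succ, mul_comm]
          rw [← h5]
          exact hPQ
      · refine euler_odd C L hL d s hdd hds p k hp hp2 hk ?_
        rw [← hc]
        exact hPQ
  · rcases Nat.eq_zero_or_pos k with rfl | hk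
    · rw [pow_zero, mul_one] at hc
      rw [hc] at hPQ
      exact euler_two hPQ C L
    · refine euler_even C L hL d s hdd hds p k hp hk ?_
      rw [← hc]
      exact hPQ

end Run7.h629
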