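import Mathlib

open CategoryTheory MonoidalCategory Limits AlgebraicTopology Simplicial Opposite

namespace Run7.h629

universe u w v

/-- naturality of the combinatorial homotopy attached to an `SSet` homotopy -/
lemma sset_h_natural {X Y : SSet.{w}} {f g : X ⟶ Y} (H : SSet.Homotopy f g)
    (φ : X ⟶ X) (ψ : Y ⟶ Y)
    (hH : φ ▷ Δ[1] ≫ H.h = H.h ≫ ψ) (n : ℕ) (i : Fin (n+1)) :
    φ.app _ ≫ H.toSimplicialObjectHomotopy.h i =
      H.toSimplicialObjectHomotopy.h i ≫ ψ.app (op ⦋n+1⦌) := by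
  ext x
  simp only [SSet.Homotopy.toSimplicialObjectHomotopy]
  have h1 : SSet.yonedaEquiv.symm (φ.app _ x) = SSet.yonedaEquiv.symm x ≫ φ := by
    rw [Equiv.symm_apply_eq]
    simp
  change (SSet.yonedaEquiv.symm (φ.app _ x) ▷ Δ[1] ≫ H.h).app _ _ = ψ.app _ ((SSet.yonedaEquiv.symm x ▷ Δ[1] ≫ H.h).app _ _)
  rw [h1, comp_whiskerRight, Category.assoc, hH]
  rfl

/-- naturality of the chain homotopy attached to a simplicial object homotopy -/
lemma toChainHomotopy_natural {C : Type u} [Category.{v} C] [Preadditive C]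
    {X Y : SimplicialObject C} {f g : X ⟶ Y} (H : SimplicialObject.Homotopy f g)
    (φ : X ⟶ X) (ψ : Y ⟶ Y)
    (hH : ∀ (n : ℕ) (i : Fin (n+1)), φ.app _ ≫ H.h i = H.h i ≫ ψ.app (op ⦋n+1⦌)) (p q : ℕ) :
    ((alternatingFaceMapComplex C).map φ).f p ≫ H.toChainHomotopy.hom p q =
      H.toChainHomotopy.hom p q ≫ ((alternatingFaceMapComplex C).map ψ).f q := by
  by_cases hpq : p + 1 = q
  · subst hpq
    simp only [SimplicialObject.Homotopy.toChainHomotopy, SimplicialObject.Homotopy.ToChainHomotopy.hom_eq]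
    simp [Preadditive.comp_neg, Preadditive.neg_comp, Preadditive.comp_sum, Preadditive.sum_comp, hH]
  · simp only [SimplicialObject.Homotopy.toChainHomotopy, SimplicialObject.Homotopy.ToChainHomotopy.hom_eq_zero _ _ _ hpq]
    simp

lemma whiskerRight_h {C : Type u} [Category.{v} C] {D : Type*} [Category D]
    {X Y : SimplicialObject C} {f g : X ⟶ Y} (H : SimplicialObject.Homotopy f g) (F : C ⥤ D)
    (n : ℕ) (i : Fin (n+1)) : (H.whiskerRight F).h i = F.map (H.h i) := rfl

lemma sing_natural {C : Type u} [Category.{v} C] [Preadditive C] [HasCoproducts.{w} C]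
    {X Y : TopCat.{w}} {f g : X ⟶ Y} (H : TopCat.Homotopy f g) (φ : X ⟶ X) (ψ : Y ⟶ Y)
    (hH : ∀ t x, H (t, φ x) = ψ (H (t, x))) (R : C) (p q : ℕ) :
    (((singularChainComplexFunctor C).obj R).map φ).f p ≫
        (H.singularChainComplexFunctorObjMap R).hom p q =
      (H.singularChainComplexFunctorObjMap R).hom p q ≫
        (((singularChainComplexFunctor C).obj R).map ψ).f q := by
  refine toChainHomotopy_natural (H.toSSet.toSimplicialObjectHomotopy.whiskerRight _)
    (((SimplicialObject.whiskering _ _).obj (sigmaConst.obj R)).map (TopCat.toSSet.map φ))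
    (((SimplicialObject.whiskering _ _).obj (sigmaConst.obj R)).map (TopCat.toSSet.map ψ)) ?_ p q
  intro n i
  rw [whiskerRight_h]
  have h0 : TopCat.toSSet.map φ ▷ Δ[1] ≫ H.toSSet.h = H.toSSet.h ≫ TopCat.toSSet.map ψ := by
    have h2 : φ ▷ TopCat.I ≫ H.h = H.h ≫ ψ := by
      ext p
      exact hH _ _
    have h3 : TopCat.toSSet.map φ ▷ Δ[1] ≫ TopCat.toSSet.obj X ◁ SSet.stdSimplex.toSSetObjI =
      TopCat.toSSet.obj X ◁ SSet.stdSimplex.toSSetObjI ≫ TopCat.toSSet.map φ ▷ _ :=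
        (whisker_exchange _ _).symm
    change TopCat.toSSet.map φ ▷ Δ[1] ≫ (TopCat.toSSet.obj X ◁ SSet.stdSimplex.toSSetObjI ≫
      Functor.LaxMonoidal.μ TopCat.toSSet _ _ ≫ TopCat.toSSet.map H.h) =
      (TopCat.toSSet.obj X ◁ SSet.stdSimplex.toSSetObjI ≫
      Functor.LaxMonoidal.μ TopCat.toSSet _ _ ≫ TopCat.toSSet.map H.h) ≫ TopCat.toSSet.map ψ
    rw [reassoc_of% h3, Functor.LaxMonoidal.μ_natural_left_assoc, ← Functor.map_comp, h2,
      Functor.map_comp]
    simp only [Category.assoc]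
  have := sset_h_natural H.toSSet (TopCat.toSSet.map φ) (TopCat.toSSet.map ψ) h0 n i
  have h4 := congrArg (fun k => (sigmaConst.obj R).map k) this
  simp only [Functor.map_comp] at h4
  exact h4

end Run7.h629
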