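import Pool.Agent.Run7.h629.PolyOne

namespace Run7.h629

open Polynomial

attribute [local instance] finite_Mq projective_Mq

/-- The polynomial `1 + X^j + ... + X^(j (M-1))`. -/
noncomputable def geomP (j M : ℕ) : ℤ[X] := ∑ i ∈ Finset.range M, (X^j)^i

lemma geomP_mul (j M : ℕ) : (X^j - 1) * geomP j M = (X^j)^M - 1 := by
  rw [geomP, mul_comm]
  exact geom_sum_mul _ _

lemma geomP_eval (j M : ℕ) (r : ℤ) (hr : r^j = 1) : (geomP j M).eval r = M := by
  simp [geomP, eval_finsetSum, hr]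

lemma Xj_sub_one_monic (j : ℕ) (hj : 0 < j) : ((X : ℤ[X])^j - 1).Monic := by
  have := monic_X_pow_sub_C (1 : ℤ) hj.ne'
  simpa using this

lemma geomP_monic (j M : ℕ) (hj : 0 < j) (hM : 0 < M) : (geomP j M).Monic := by
  have h1 := Xj_sub_one_monic j hj
  have h2 : ((X^j - 1) * geomP j M).Monic := by
    rw [geomP_mul, ← pow_mul]
    exact Xj_sub_one_monic _ (by positivity)
  exact h1.of_mul_monic_left h2

lemma geomP_units (j M : ℕ) (hj : 0 < j) (hM : 1 < M) (r : ℤ) (hr : r^j = 1) (w : ℕ)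
    (hc : IsCoprime (w : ℤ) M) :
    ∃ u v : ℤ[X], u.eval r = w ∧ geomP j M ∣ u * v - 1 := by
  obtain ⟨v, k, hv⟩ : ∃ v k : ℕ, w * v = M * k + 1 := by
    have hc' : Nat.Coprime w M := Nat.isCoprime_iff_coprime.1 hc
    obtain ⟨v, -, hv⟩ := Nat.exists_mul_mod_eq_one_of_coprime hc' hM
    refine ⟨v, w * v / M, ?_⟩
    have := Nat.div_add_mod (w * v) M
    omega
  refine ⟨geomP j w, ∑ i ∈ Finset.range v, ((X^j)^w)^i, geomP_eval j w r hr, ?_⟩
  have h1 : geomP j w * (X^j - 1) = (X^j)^w - 1 := by rw [mul_comm, geomP_mul]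
  have h2 : (∑ i ∈ Finset.range v, (((X : ℤ[X])^j)^w)^i) * ((X^j)^w - 1) =
      ((X^j)^w)^v - 1 := geom_sum_mul _ _
  have h3 : ((X : ℤ[X])^j)^M - 1 ∣ ((X^j)^M)^k - 1 := by
    have := sub_dvd_pow_sub_pow (((X : ℤ[X])^j)^M) 1 k
    rwa [one_pow] at this
  obtain ⟨l, hl⟩ := h3
  have h4 : (((X : ℤ[X])^j)^w)^v = X^j * ((X^j)^M)^k := by
    rw [← pow_mul, hv, pow_add, pow_mul, pow_one, mul_comm]
  refine ⟨X^j * l, ?_⟩
  apply mul_left_cancel₀ (Xj_sub_one_monic j hj).ne_zero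
  have h5 := geomP_mul j M
  linear_combination (∑ i ∈ Finset.range v, (((X : ℤ[X])^j)^w)^i) * h1 + h2 + h4 +
    X^j * hl - X^j * l * h5

lemma geomP_factor (M : ℕ) : geomP 1 (2 * M) = (X - C (-1)) * geomP 2 M := by
  apply mul_left_cancel₀ (Xj_sub_one_monic 1 one_pos).ne_zero
  have h1 := geomP_mul 1 (2 * M)
  have h2 := geomP_mul 2 M
  have h3 : ((X : ℤ[X])^1)^(2*M) = (X^2)^M := by rw [pow_one, pow_mul]
  rw [map_neg, map_one]
  linear_combination h1 - h2 + h3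

lemma geomP_deriv (j M : ℕ) : 2 * (geomP j M).derivative.eval 1 = j * (M * (M - 1)) := by
  induction M with
  | zero => simp [geomP]
  | succ M ih =>
    rw [geomP, Finset.sum_range_succ, ← geomP, derivative_add, eval_add, mul_add, ih, ← pow_mul,
      derivative_X_pow]
    simp
    ring

/-- One descent step. -/
lemma descend_poly {B : Type} [CommRing B] {x : B} (j M : ℕ) (hj : 0 < j) (hM : 1 < M) (r : ℤ)
    (hr : r^j = 1) (h : PolyQuot B x ((X - C r) * geomP j M)) (C : ℕ → Type)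
    [∀ n, AddCommGroup (C n)] [∀ n, Module B (C n)] [∀ n, Module.Finite B (C n)]
    [∀ n, Module.Projective B (C n)] (L : ℕ)
    (hC : ∑ n ∈ Finset.range L, (-1 : ℤ)^n •
      K0.cls (B ⧸ Ideal.span {aeval x (geomP j M)}) (Mq (aeval x (geomP j M)) (C n)) ∈
      AddSubgroup.zmultiples (K0.cls (B ⧸ Ideal.span {aeval x (geomP j M)})
        (B ⧸ Ideal.span {aeval x (geomP j M)}))) :
    ∑ n ∈ Finset.range L, (-1 : ℤ)^n • K0.cls B (C n) ∈
      AddSubgroup.zmultiples (K0.cls B B) := by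
  obtain ⟨ε, D⟩ := h.squareData r (geomP_monic j M hj (by omega)) M (geomP_eval j M r hr)
    (by exact_mod_cast hM) (fun w _ hc => geomP_units j M hj hM r hr w hc)
  exact D.descend C L hC

/-- Passing to the quotient by `f`, for the differential. -/
lemma mq_hdd {B : Type} [CommRing B] (f : B) (C : ℕ → Type)
    [∀ n, AddCommGroup (C n)] [∀ n, Module B (C n)] (d : ∀ n, C (n+1) →ₗ[B] C n)
    (hdd : ∀ n y, d n (d (n+1) y) = 0) (n : ℕ) (y : Mq f (C (n+2))) :
    toS (mapq f (d n)) (toS (mapq f (d (n+1))) y) = 0 := by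
  obtain ⟨y, rfl⟩ := mkq_surj f y
  change mkq f _ (d n (d (n+1) y)) = 0
  rw [hdd, map_zero]

/-- Passing to the quotient by `f`, for the homotopy. -/
lemma mq_hds {B : Type} [CommRing B] (f : B) (x : B) (C : ℕ → Type)
    [∀ n, AddCommGroup (C n)] [∀ n, Module B (C n)] (d : ∀ n, C (n+1) →ₗ[B] C n)
    (s : ∀ n, C n →ₗ[B] C (n+1))
    (hds : ∀ n y, d (n+1) (s (n+1) y) + s n (d n y) = (x - 1) • y) (n : ℕ)
    (y : Mq f (C (n+1))) :
    toS (mapq f (d (n+1))) (toS (mapq f (s (n+1))) y) + toS (mapq f (s n)) (toS (mapq f (d n)) y)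
      = (Ideal.Quotient.mk (Ideal.span {f}) x - 1) • y := by
  obtain ⟨y, rfl⟩ := mkq_surj f y
  have h1 : (Ideal.Quotient.mk (Ideal.span {f}) x - 1) • (mkq f (C (n+1)) y) =
      mkq f (C (n+1)) ((x - 1) • y) := rfl
  rw [h1, ← hds]
  exact (map_add (mkq f (C (n+1))) _ _).symm

section main

variable {B : Type} [CommRing B] {x : B} (C : ℕ → Type)
    [∀ n, AddCommGroup (C n)] [∀ n, Module B (C n)] [∀ n, Module.Finite B (C n)]
    [∀ n, Module.Projective B (C n)] [Subsingleton (C 0)] (L : ℕ)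
    (hL : ∀ n, L ≤ n → Subsingleton (C n)) (d : ∀ n, C (n+1) →ₗ[B] C n)
    (s : ∀ n, C n →ₗ[B] C (n+1)) (hdd : ∀ n y, d n (d (n+1) y) = 0)
    (hds : ∀ n y, d (n+1) (s (n+1) y) + s n (d n y) = (x - 1) • y)

include hL hdd hds

/-- Odd prime powers. -/
theorem euler_odd (p k : ℕ) (hp : p.Prime) (hp2 : p ≠ 2) (hk : 0 < k)
    (h : PolyQuot B x (X^(p^k) - 1)) :
    ∑ n ∈ Finset.range L, (-1 : ℤ)^n • K0.cls B (C n) ∈ AddSubgroup.zmultiples (K0.cls B B) := by
  have hM : 1 < p^k := Nat.one_lt_pow hk.ne' hp.one_lt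
  have h' : PolyQuot B x ((X - Polynomial.C 1) * geomP 1 (p^k)) := by
    have h2 := geomP_mul 1 (p^k)
    rw [pow_one] at h2
    rw [map_one, h2]
    exact h
  refine descend_poly 1 (p^k) one_pos hM 1 (one_pow _) h' C L ?_
  have h2 := h'.quot
  have h3 : (geomP 1 (p^k)).eval 1 = (p : ℤ)^k := by
    rw [geomP_eval 1 (p^k) 1 (one_pow _)]
    push_cast
    rfl
  have hd : (geomP 1 (p^k)).eval 1 ∣ (geomP 1 (p^k)).derivative.eval 1 := by
    have h4 := geomP_deriv 1 (p^k)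
    have hodd : Odd (p^k) := (hp.odd_of_ne_two hp2).pow
    obtain ⟨c, hc⟩ := hodd
    refine ⟨c, ?_⟩
    rw [h3]
    have h5 : ((p^k : ℕ) : ℤ) = 2 * c + 1 := by exact_mod_cast hc
    rw [h5] at h4
    have h6 : (p : ℤ)^k = 2 * c + 1 := by exact_mod_cast hc
    rw [h6]
    push_cast at h4
    linarith
  have hsub : ∀ n, L ≤ n → Subsingleton (Mq (aeval x (geomP 1 (p^k))) (C n)) := fun n hn => by
    have := hL n hn
    infer_instance
  rw [h2.step_one p k hp hk h3 hd (fun n => Mq (aeval x (geomP 1 (p^k))) (C n)) L hsub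
    (fun n => toS (mapq _ (d n))) (fun n => toS (mapq _ (s n))) (mq_hdd _ C d hdd)
    (mq_hds _ x C d s hds)]
  exact zero_mem _

/-- The second descent, for twice a prime power. -/
theorem euler_even_aux (p k : ℕ) (hp : p.Prime) (hk : 0 < k)
    (h : PolyQuot B x ((X - Polynomial.C (-1)) * geomP 2 (p^k))) :
    ∑ n ∈ Finset.range L, (-1 : ℤ)^n • K0.cls B (C n) ∈ AddSubgroup.zmultiples (K0.cls B B) := by
  have hM : 1 < p^k := Nat.one_lt_pow hk.ne' hp.one_lt
  refine descend_poly 2 (p^k) two_pos hM (-1) (by norm_num) h C L ?_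
  have h2 := h.quot
  have h4 : (geomP 2 (p^k)).eval 1 = (p : ℤ)^k := by
    rw [geomP_eval 2 (p^k) 1 (one_pow _)]
    push_cast
    rfl
  have hd : (geomP 2 (p^k)).eval 1 ∣ (geomP 2 (p^k)).derivative.eval 1 := by
    have h5 := geomP_deriv 2 (p^k)
    refine ⟨(p : ℤ)^k - 1, ?_⟩
    rw [h4]
    push_cast at h5
    linarith
  have hsub : ∀ n, L ≤ n → Subsingleton (Mq (aeval x (geomP 2 (p^k))) (C n)) := fun n hn => by
    have := hL n hn
    infer_instance
  rw [h2.step_one p k hp hk h4 hd (fun n => Mq (aeval x (geomP 2 (p^k))) (C n)) L hsub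
    (fun n => toS (mapq _ (d n))) (fun n => toS (mapq _ (s n))) (mq_hdd _ C d hdd)
    (mq_hds _ x C d s hds)]
  exact zero_mem _

/-- Twice a prime power. -/
theorem euler_even (p k : ℕ) (hp : p.Prime) (hk : 0 < k)
    (h : PolyQuot B x (X^(2 * p^k) - 1)) :
    ∑ n ∈ Finset.range L, (-1 : ℤ)^n • K0.cls B (C n) ∈ AddSubgroup.zmultiples (K0.cls B B) := by
  have hM : 1 < p^k := Nat.one_lt_pow hk.ne' hp.one_lt
  have h' : PolyQuot B x ((X - Polynomial.C 1) * geomP 1 (2 * p^k)) := by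
    have h2 := geomP_mul 1 (2 * p^k)
    rw [pow_one] at h2
    rw [map_one, h2]
    exact h
  refine descend_poly 1 (2 * p^k) one_pos (by omega) 1 (one_pow _) h' C L ?_
  have h2 := h'.quot
  have hsub : ∀ n, L ≤ n → Subsingleton (Mq (aeval x (geomP 1 (2 * p^k))) (C n)) :=
    fun n hn => by
      have := hL n hn
      infer_instance
  have h3 : PolyQuot (B ⧸ Ideal.span {aeval x (geomP 1 (2 * p^k))}) (Ideal.Quotient.mk _ x)
      ((X - Polynomial.C (-1)) * geomP 2 (p^k)) := by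
    rw [← geomP_factor]
    exact h2
  exact euler_even_aux (fun n => Mq (aeval x (geomP 1 (2 * p^k))) (C n)) L hsub
    (fun n => toS (mapq _ (d n))) (fun n => toS (mapq _ (s n))) (mq_hdd _ C d hdd)
    (mq_hds _ x C d s hds) p k hp hk h3

end main

end Run7.h629
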