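import Pool.Agent.Run7.h629.Chains

open CategoryTheory MonoidalCategory Limits AlgebraicTopology Simplicial Opposite
open scoped unitInterval Topology

namespace Run7.h629

/-- A functor transports actions of a group on objects. -/
def mapAct {C D : Type*} [Category* C] [Category* D] {G : Type*} [Group G] (F : C ⥤ D) (X : C)
    (ρ : G →* End X) : G →* End (F.obj X) := (F.mapEnd X).comp ρ

section groupRing

variable {k : Type} [CommRing k] {G : Type} [Group G]

/-- An action of a group on a module, as a representation. -/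
def objRep (M : ModuleCat.{0} k) (ρ : G →* End M) : Representation k G M where
  toFun g := (ρ g).hom
  map_one' := by
    rw [map_one]
    rfl
  map_mul' g h := by
    rw [map_mul]
    rfl

/-- An action of a group on a module, as an object of the category of representations. -/
def repOf (M : ModuleCat.{0} k) (ρ : G →* End M) : Rep.{0} k G := Rep.of (objRep M ρ)

/-- An equivariant map as a morphism of representations. -/
def repHom (M N : ModuleCat.{0} k) (ρ : G →* End M) (τ : G →* End N) (f : M ⟶ N)
    (h : ∀ g, ρ g ≫ f = f ≫ τ g) : repOf M ρ ⟶ repOf N τ :=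
  Rep.ofHom ⟨f.hom, fun g => by
    ext v
    exact ConcreteCategory.congr_hom (h g) v⟩

/-- The action of a group on the degree `n` part of a chain complex on which it acts. -/
def degreeHom (K : ChainComplex (ModuleCat.{0} k) ℕ) (ρ : G →* End K) (n : ℕ) :
    G →* End (K.X n) :=
  mapAct (HomologicalComplex.eval (ModuleCat.{0} k) (ComplexShape.down ℕ) n) K ρ

lemma degreeHom_comm (K : ChainComplex (ModuleCat.{0} k) ℕ) (ρ : G →* End K) (i j : ℕ) (g : G) :
    degreeHom K ρ i g ≫ K.d i j = K.d i j ≫ degreeHom K ρ j g :=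
  (ρ g).comm i j

/-- A chain complex of `k`-modules with an action of a group `G`, viewed as a chain complex of
modules over the group ring `k[G]`. -/
noncomputable def groupRingComplex (K : ChainComplex (ModuleCat.{0} k) ℕ) (ρ : G →* End K) :
    ChainComplex (ModuleCat.{0} (MonoidAlgebra k G)) ℕ where
  X n := Rep.toModuleMonoidAlgebra.obj (repOf (K.X n) (degreeHom K ρ n))
  d i j := Rep.toModuleMonoidAlgebra.map
    (repHom (K.X i) (K.X j) (degreeHom K ρ i) (degreeHom K ρ j) (K.d i j)
      (degreeHom_comm K ρ i j))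
  shape i j hij := by
    ext v
    exact ConcreteCategory.congr_hom (K.shape i j hij) v
  d_comp_d' i j k hij hjk := by
    ext v
    exact ConcreteCategory.congr_hom (K.d_comp_d i j k) v

/-- An equivariant additive map between the degrees is linear over the group ring. -/
noncomputable def mkLin (K : ChainComplex (ModuleCat.{0} k) ℕ) (ρ : G →* End K) (i j : ℕ)
    (f : K.X i ⟶ K.X j) (h : ∀ g, (ρ g).f i ≫ f = f ≫ (ρ g).f j) :
    (groupRingComplex K ρ).X i ⟶ (groupRingComplex K ρ).X j :=
  Rep.toModuleMonoidAlgebra.map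
    (repHom (K.X i) (K.X j) (degreeHom K ρ i) (degreeHom K ρ j) f h)

lemma mkLin_apply (K : ChainComplex (ModuleCat.{0} k) ℕ) (ρ : G →* End K) (i j : ℕ)
    (f : K.X i ⟶ K.X j) (h : ∀ g, (ρ g).f i ≫ f = f ≫ (ρ g).f j) (v : K.X i) :
    (mkLin K ρ i j f h).hom v = f.hom v := rfl

lemma single_smul_one (K : ChainComplex (ModuleCat.{0} k) ℕ) (ρ : G →* End K) (n : ℕ) (g : G)
    (v : (groupRingComplex K ρ).X n) :
    MonoidAlgebra.single g (1 : k) • v = ((ρ g).f n).hom v := by
  have h := Representation.single_smul (objRep (K.X n) (degreeHom K ρ n)) (1 : k) g v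
  rw [one_smul] at h
  exact h

end groupRing

section

variable (G : Type) [Group G] (E : Type) [TopologicalSpace E] [MulAction G E]
  [ContinuousConstSMul G E]

/-- The integral singular chain complex of a topological space (Mathlib's). -/
noncomputable abbrev singZ : TopCat.{0} ⥤ ChainComplex (ModuleCat.{0} ℤ) ℕ :=
  (singularChainComplexFunctor (ModuleCat.{0} ℤ)).obj (ModuleCat.of ℤ ℤ)

variable {G} in
/-- The homeomorphism given by a group element, as a morphism of topological spaces. -/
def actMap (g : G) : TopCat.of E ⟶ TopCat.of E :=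
  TopCat.ofHom ⟨fun y => g • y, continuous_const_smul g⟩

/-- The action of a group on a space, as a homomorphism to the endomorphisms of the space. -/
def actHom : G →* End (TopCat.of E) where
  toFun g := actMap E g
  map_one' := by
    change actMap E (1 : G) = 𝟙 (TopCat.of E)
    ext y
    exact one_smul G y
  map_mul' g h := by
    change actMap E (g * h) = actMap E h ≫ actMap E g
    ext y
    exact mul_smul g h y

/-- The singular chain complex of a space with an action of a group, as a complex of modules
over the integral group ring. -/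
noncomputable def eqChains : ChainComplex (ModuleCat.{0} (MonoidAlgebra ℤ G)) ℕ :=
  groupRingComplex (singZ.obj (TopCat.of E)) (mapAct singZ (TopCat.of E) (actHom G E))

end

section nullhomotopy

variable {A : Type} [CommRing A]

/-- Multiplication by an element of a commutative ring, as a chain map. -/
noncomputable def mulBy (T : A) (K : ChainComplex (ModuleCat.{0} A) ℕ) : K ⟶ K where
  f n := ModuleCat.ofHom (T • LinearMap.id)
  comm' i j _ := by
    ext v
    simp

lemma mulBy_naturality (T : A) {K L : ChainComplex (ModuleCat.{0} A) ℕ} (φ : K ⟶ L) :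
    mulBy T K ≫ φ = φ ≫ mulBy T L := by
  ext n v
  simp [mulBy]

/-- A null homotopy of multiplication by `T` is transported along a homotopy equivalence. -/
noncomputable def transport_null (T : A) {P S : ChainComplex (ModuleCat.{0} A) ℕ}
    (e : HomotopyEquiv P S) (h : Homotopy (mulBy T S) 0) : Homotopy (mulBy T P) 0 := by
  have h1 : Homotopy (e.hom ≫ mulBy T S ≫ e.inv) (e.hom ≫ (0 : S ⟶ S) ≫ e.inv) :=
    (h.compRight e.inv).compLeft e.hom
  have h2 : e.hom ≫ mulBy T S ≫ e.inv = mulBy T P ≫ e.hom ≫ e.inv := by
    rw [← Category.assoc, ← mulBy_naturality, Category.assoc]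
  have h3 : Homotopy (mulBy T P ≫ e.hom ≫ e.inv) (mulBy T P ≫ 𝟙 P) :=
    e.homotopyHomInvId.compLeft (mulBy T P)
  have h4 : Homotopy (mulBy T P ≫ 𝟙 P) (e.hom ≫ (0 : S ⟶ S) ≫ e.inv) :=
    (h3.symm.trans (Homotopy.ofEq h2.symm)).trans h1
  have e1 : mulBy T P ≫ 𝟙 P = mulBy T P := Category.comp_id _
  have e2 : e.hom ≫ (0 : S ⟶ S) ≫ e.inv = 0 := by simp
  exact ((Homotopy.ofEq e1.symm).trans h4).trans (Homotopy.ofEq e2)

lemma exists_contraction (T : A) {P : ChainComplex (ModuleCat.{0} A) ℕ}
    (h : Homotopy (mulBy T P) 0) :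
    ∃ s : ∀ n, P.X n →ₗ[A] P.X (n+1), (∀ x, (P.d 1 0).hom (s 0 x) = T • x) ∧
      ∀ n x, (P.d (n+2) (n+1)).hom (s (n+1) x) + s n ((P.d (n+1) n).hom x) = T • x := by
  refine ⟨fun n => (h.hom n (n+1)).hom, ?_, ?_⟩
  · intro x
    have h1 := h.comm 0
    rw [Homotopy.dNext_zero_chainComplex, Homotopy.prevD_chainComplex] at h1
    have h2 := ConcreteCategory.congr_hom h1 x
    simp [mulBy] at h2
    exact h2.symm
  · intro n x
    have h1 := h.comm (n+1)
    rw [Homotopy.dNext_succ_chainComplex, Homotopy.prevD_chainComplex] at h1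
    have h2 := ConcreteCategory.congr_hom h1 x
    simp [mulBy] at h2
    exact (add_comm _ _).trans h2.symm

end nullhomotopy

section

variable {G : Type} [CommGroup G] {E : Type} [TopologicalSpace E] [MulAction G E]
  [ContinuousConstSMul G E]

/-- The chain homotopy attached to an equivariant homotopy from the identity to `g`. -/
noncomputable def eqHomotopy (g : G) (H : C(I × E, E)) (h0 : ∀ y, H (0, y) = y)
    (h1 : ∀ y, H (1, y) = g • y) (he : ∀ t (h : G) y, H (t, h • y) = h • H (t, y)) :
    Homotopy (𝟙 (eqChains G E)) (mulBy (MonoidAlgebra.single g (1 : ℤ)) (eqChains G E)) := by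
  let F : TopCat.Homotopy (𝟙 (TopCat.of E)) (actMap E g) :=
    { toContinuousMap := H, map_zero_left := h0, map_one_left := h1 }
  let h := F.singularChainComplexFunctorObjMap (ModuleCat.of ℤ ℤ)
  let ρ : G →* End (singZ.obj (TopCat.of E)) := mapAct singZ (TopCat.of E) (actHom G E)
  have hnat : ∀ (i j : ℕ) (a : G), (ρ a).f i ≫ h.hom i j = h.hom i j ≫ (ρ a).f j := by
    intro i j a
    exact sing_natural F (actMap E a) (actMap E a) (fun t y => he t a y) (ModuleCat.of ℤ ℤ) i j
  let hh : ∀ i j, (eqChains G E).X i ⟶ (eqChains G E).X j := fun i j =>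
    mkLin (singZ.obj (TopCat.of E)) ρ i j (h.hom i j) (hnat i j)
  refine { hom := hh
           zero := ?_
           comm := ?_ }
  · intro i j hij
    ext v
    exact ConcreteCategory.congr_hom (h.zero i j hij) v
  · intro n
    have hid : ∀ v : (singZ.obj (TopCat.of E)).X n,
        ((singZ.map (𝟙 (TopCat.of E))).f n).hom v = v := by
      intro v
      rw [CategoryTheory.Functor.map_id]
      rfl
    have hmul : ∀ v : (singZ.obj (TopCat.of E)).X n,
        ((singZ.map (actMap E g)).f n).hom v =
          ((mulBy (MonoidAlgebra.single g (1 : ℤ)) (eqChains G E)).f n).hom v := by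
      intro v
      exact (single_smul_one (singZ.obj (TopCat.of E)) ρ n g v).symm
    cases n with
    | zero =>
      rw [Homotopy.dNext_zero_chainComplex, Homotopy.prevD_chainComplex]
      have h2 := h.comm 0
      rw [Homotopy.dNext_zero_chainComplex, Homotopy.prevD_chainComplex] at h2
      have key : ∀ v : (singZ.obj (TopCat.of E)).X 0,
          v = (0 + ((singZ.obj (TopCat.of E)).d 1 0).hom ((h.hom 0 1).hom v)) +
          ((singZ.map (actMap E g)).f 0).hom v :=
        fun v => (hid v).symm.trans (ConcreteCategory.congr_hom h2 v)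
      ext v
      refine (key v).trans ?_
      exact congrArg (fun w : (singZ.obj (TopCat.of E)).X 0 =>
        (0 + ((singZ.obj (TopCat.of E)).d 1 0).hom ((h.hom 0 1).hom v)) + w) (hmul v)
    | succ n =>
      rw [Homotopy.dNext_succ_chainComplex, Homotopy.prevD_chainComplex]
      have h2 := h.comm (n+1)
      rw [Homotopy.dNext_succ_chainComplex, Homotopy.prevD_chainComplex] at h2
      have key : ∀ v : (singZ.obj (TopCat.of E)).X (n+1),
          v = ((h.hom n (n+1)).hom (((singZ.obj (TopCat.of E)).d (n+1) n).hom v) +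
          ((singZ.obj (TopCat.of E)).d (n+2) (n+1)).hom ((h.hom (n+1) (n+2)).hom v)) +
          ((singZ.map (actMap E g)).f (n+1)).hom v :=
        fun v => (hid v).symm.trans (ConcreteCategory.congr_hom h2 v)
      ext v
      refine (key v).trans ?_
      exact congrArg (fun w : (singZ.obj (TopCat.of E)).X (n+1) =>
        ((h.hom n (n+1)).hom (((singZ.obj (TopCat.of E)).d (n+1) n).hom v) +
          ((singZ.obj (TopCat.of E)).d (n+2) (n+1)).hom ((h.hom (n+1) (n+2)).hom v)) + w) (hmul v)

/-- Multiplication by `g - 1` is null homotopic on the equivariant singular chains. -/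
noncomputable def nullHomotopy (g : G) (H : C(I × E, E)) (h0 : ∀ y, H (0, y) = y)
    (h1 : ∀ y, H (1, y) = g • y) (he : ∀ t (h : G) y, H (t, h • y) = h • H (t, y)) :
    Homotopy (mulBy (MonoidAlgebra.single g (1 : ℤ) - 1) (eqChains G E)) 0 := by
  refine (Homotopy.ofEq ?_).trans (Homotopy.equivSubZero (eqHomotopy g H h0 h1 he).symm)
  ext n v
  change (MonoidAlgebra.single g (1 : ℤ) - 1) • v = MonoidAlgebra.single g (1 : ℤ) • v - v
  rw [sub_smul, one_smul]

end

end Run7.h629
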