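import Mathlib

open scoped unitInterval Topology

namespace Run7.h629

section lifting

variable {X E G : Type*} [TopologicalSpace X] [TopologicalSpace E] [Group G] [MulAction G E]
  {p : E → X}

/-- Homotopy lifting along a quotient covering map, with equivariance of the lift. -/
theorem equivariant_lift (hp : IsQuotientCoveringMap p G) (K : C(I × E, X))
    (hK : ∀ t (h : G) y, K (t, h • y) = K (t, y)) (φ : C(E, E))
    (hφ : ∀ (h : G) y, φ (h • y) = h • φ y) (h0 : ∀ y, K (0, y) = p (φ y)) :
    ∃ H : C(I × E, E), (∀ t y, p (H (t, y)) = K (t, y)) ∧ (∀ y, H (0, y) = φ y) ∧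
      ∀ t (h : G) y, H (t, h • y) = h • H (t, y) := by
  have cov := hp.isCoveringMap
  refine ⟨cov.liftHomotopy K φ h0, fun t y => congr_fun (cov.liftHomotopy_lifts K φ h0) (t, y),
    cov.liftHomotopy_zero K φ h0, ?_⟩
  intro t h y
  have hc := hp.toContinuousConstSMul
  let H' : C(I × E, E) := ⟨fun ty => h⁻¹ • cov.liftHomotopy K φ h0 (ty.1, h • ty.2), by
    have h1 : Continuous fun ty : I × E => (ty.1, h • ty.2) :=
      continuous_fst.prodMk (continuous_snd.const_smul h)
    exact ((cov.liftHomotopy K φ h0).continuous.comp h1).const_smul h⁻¹⟩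
  have hH' : H' = cov.liftHomotopy K φ h0 := by
    rw [cov.eq_liftHomotopy_iff']
    constructor
    · funext ⟨t, y⟩
      change p (h⁻¹ • cov.liftHomotopy K φ h0 (t, h • y)) = K (t, y)
      rw [hp.map_smul]
      rw [show p (cov.liftHomotopy K φ h0 (t, h • y)) = K (t, h • y) from
        congr_fun (cov.liftHomotopy_lifts K φ h0) (t, h • y), hK]
    · intro a
      change h⁻¹ • cov.liftHomotopy K φ h0 (0, h • a) = φ a
      rw [cov.liftHomotopy_zero, hφ, inv_smul_smul]
  have h2 := congrArg (fun F : C(I × E, E) => h • F (t, y)) hH'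
  change h • h⁻¹ • cov.liftHomotopy K φ h0 (t, h • y) = h • cov.liftHomotopy K φ h0 (t, y) at h2
  rwa [smul_inv_smul] at h2

/-- For a space with a product having a unit up to homotopy, every deck transformation of a
path connected quotient covering is homotopic to the identity through equivariant maps. -/
theorem exists_equivariant_homotopy [PathConnectedSpace E] (hp : IsQuotientCoveringMap p G)
    (hcomm : ∀ a b : G, a * b = b * a)
    (μ : C(X × X, X)) (e : X)
    (hl : (μ.comp ((ContinuousMap.const X e).prodMk (ContinuousMap.id X))).Homotopic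
      (ContinuousMap.id X))
    (hr : (μ.comp ((ContinuousMap.id X).prodMk (ContinuousMap.const X e))).Homotopic
      (ContinuousMap.id X)) (g : G) :
    ∃ H : C(I × E, E), (∀ y, H (0, y) = y) ∧ (∀ y, H (1, y) = g • y) ∧
      ∀ t (h : G) y, H (t, h • y) = h • H (t, y) := by
  have cov := hp.isCoveringMap
  have hc := hp.toContinuousConstSMul
  have hpc : Continuous p := hp.continuous
  obtain ⟨A⟩ := hl.symm
  obtain ⟨R⟩ := hr.symm
  -- piece one
  have hproj : Continuous fun ty : I × E => (ty.1, p ty.2) :=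
    continuous_fst.prodMk (hpc.comp continuous_snd)
  obtain ⟨H₁, hH₁, hH₁0, hH₁e⟩ := equivariant_lift hp
    ⟨fun ty => A (ty.1, p ty.2), A.continuous.comp hproj⟩
    (fun t h y => by simp [hp.map_smul]) (ContinuousMap.id E) (fun h y => rfl)
    (fun y => by simp)
  obtain ⟨H₃, hH₃, hH₃0, hH₃e⟩ := equivariant_lift hp
    ⟨fun ty => R (ty.1, p ty.2), R.continuous.comp hproj⟩
    (fun t h y => by simp [hp.map_smul]) (ContinuousMap.id E) (fun h y => rfl)
    (fun y => by simp)
  let φ : C(E, E) := ⟨fun y => H₁ (1, y), by fun_prop⟩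
  let r : C(E, E) := ⟨fun y => H₃ (1, y), by fun_prop⟩
  have hφ : ∀ y, p (φ y) = μ (e, p y) := fun y => by
    change p (H₁ (1, y)) = _
    rw [hH₁]; simp
  have hrr : ∀ y, p (r y) = μ (p y, e) := fun y => by
    change p (H₃ (1, y)) = _
    rw [hH₃]; simp
  have hφe : ∀ (h : G) y, φ (h • y) = h • φ y := fun h y => hH₁e 1 h y
  have hre : ∀ (h : G) y, r (h • y) = h • r y := fun h y => hH₃e 1 h y
  obtain ⟨y₀, hy₀⟩ := hp.surjective e
  obtain ⟨k, hk⟩ : φ y₀ ∈ MulAction.orbit G (r y₀) := by
    rw [← hp.apply_eq_iff_mem_orbit, hφ, hrr, hy₀]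
  change k • r y₀ = φ y₀ at hk
  let ω : Path y₀ (g • y₀) := PathConnectedSpace.somePath _ _
  have hω : Continuous ω := ω.continuous
  obtain ⟨H₂, hH₂, hH₂0, hH₂e⟩ := equivariant_lift hp
    ⟨fun ty => μ (p (ω ty.1), p ty.2), by fun_prop⟩
    (fun t h y => by simp [hp.map_smul]) φ hφe
    (fun y => by simp [hφ, hy₀])
  -- the endpoint of piece two
  have hend : ∀ y, H₂ (1, y) = g • φ y := by
    have h1 : (fun y => H₂ (1, y)) = fun y => g • φ y := by
      refine cov.eq_of_comp_eq (by fun_prop) (by fun_prop) ?_ y₀ ?_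
      · funext y
        change p (H₂ (1, y)) = p (g • φ y)
        rw [hH₂, hp.map_smul, hφ]
        simp [hp.map_smul, hy₀]
      · -- path lifting
        have h2 : (fun t => H₂ (t, y₀)) = fun t => k • r (ω t) := by
          refine cov.eq_of_comp_eq (by fun_prop) (by fun_prop) ?_ 0 ?_
          · funext t
            change p (H₂ (t, y₀)) = p (k • r (ω t))
            rw [hH₂, hp.map_smul, hrr]
            simp [hy₀]
          · rw [hH₂0, ω.source, hk]
        have h3 := congr_fun h2 1
        change H₂ (1, y₀) = k • r (ω 1) at h3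
        change H₂ (1, y₀) = g • φ y₀
        rw [h3, ω.target, hre, ← hk, smul_smul, smul_smul, hcomm]
    exact fun y => congr_fun h1 y
  -- glue
  let F₁ : ContinuousMap.Homotopy (ContinuousMap.id E) φ :=
    { toContinuousMap := H₁, map_zero_left := hH₁0, map_one_left := fun y => rfl }
  let gφ : C(E, E) := ⟨fun y => g • φ y, by fun_prop⟩
  let gg : C(E, E) := ⟨fun y => g • y, by fun_prop⟩
  let F₂ : ContinuousMap.Homotopy φ gφ :=
    { toContinuousMap := H₂, map_zero_left := hH₂0, map_one_left := hend }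
  let F₃ : ContinuousMap.Homotopy gg gφ :=
    { toContinuousMap := ⟨fun ty => g • H₁ ty, by fun_prop⟩
      map_zero_left := fun y => by
        change g • H₁ (0, y) = g • y
        rw [hH₁0]; rfl
      map_one_left := fun y => rfl }
  have e1 : ∀ t (h : G) y, F₁ (t, h • y) = h • F₁ (t, y) := hH₁e
  have e2 : ∀ t (h : G) y, F₂ (t, h • y) = h • F₂ (t, y) := hH₂e
  have e3 : ∀ t (h : G) y, F₃ (t, h • y) = h • F₃ (t, y) := fun t h y => by
    change g • H₁ (t, h • y) = h • g • H₁ (t, y)
    rw [hH₁e, smul_smul, smul_smul, hcomm]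
  let F := (F₁.trans F₂).trans F₃.symm
  refine ⟨F.toContinuousMap, fun y => F.map_zero_left y, fun y => F.map_one_left y, ?_⟩
  intro t h y
  change F (t, h • y) = h • F (t, y)
  simp only [F, ContinuousMap.Homotopy.trans_apply, ContinuousMap.Homotopy.symm_apply]
  split_ifs <;> simp [e1, e2, e3]

end lifting

end Run7.h629
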