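import Pool.Agent.Run7.h629.AlgMain
import Pool.Agent.Run7.h629.Topo
import Pool.Agent.Run7.h629.EqChains

namespace Run7.h629

open CategoryTheory
open scoped unitInterval Topology

section shift

variable {A : Type} [Ring A] (P : ChainComplex (ModuleCat.{0} A) ℕ)

/-- The modules of a chain complex, shifted up by one. -/
def shiftC : ℕ → Type
  | 0 => PUnit
  | (n+1) => P.X n

instance shiftC.addCommGroup : ∀ n, AddCommGroup (shiftC P n)
  | 0 => inferInstanceAs (AddCommGroup PUnit)
  | (n+1) => inferInstanceAs (AddCommGroup (P.X n))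

instance shiftC.module : ∀ n, Module A (shiftC P n)
  | 0 => inferInstanceAs (Module A PUnit)
  | (n+1) => inferInstanceAs (Module A (P.X n))

instance shiftC.subsingleton : Subsingleton (shiftC P 0) := inferInstanceAs (Subsingleton PUnit)

instance shiftC.finite [∀ n, Module.Finite A (P.X n)] : ∀ n, Module.Finite A (shiftC P n)
  | 0 => inferInstanceAs (Module.Finite A PUnit)
  | (n+1) => inferInstanceAs (Module.Finite A (P.X n))

instance shiftC.projective [∀ n, Module.Projective A (P.X n)] :
    ∀ n, Module.Projective A (shiftC P n)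
  | 0 => inferInstanceAs (Module.Projective A PUnit)
  | (n+1) => inferInstanceAs (Module.Projective A (P.X n))

/-- The shifted differential. -/
noncomputable def shiftD : ∀ n, shiftC P (n+1) →ₗ[A] shiftC P n
  | 0 => 0
  | (n+1) => (P.d (n+1) n).hom

/-- The shifted contraction. -/
def shiftS (s : ∀ n, P.X n →ₗ[A] P.X (n+1)) : ∀ n, shiftC P n →ₗ[A] shiftC P (n+1)
  | 0 => 0
  | (n+1) => s n

lemma shift_hdd (n : ℕ) (y : shiftC P (n+2)) : shiftD P n (shiftD P (n+1) y) = 0 := by
  cases n with
  | zero => rfl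
  | succ n =>
    have h := P.d_comp_d (n+2) (n+1) n
    exact ConcreteCategory.congr_hom h y

end shift

/-- The reduced Euler class of a bounded complex whose terms are finitely generated projective
vanishes if multiplication by `g - 1` is null homotopic, for a generator of a cyclic group. -/
theorem euler_complex {G : Type} [CommGroup G] [Finite G] (g : G)
    (hg : ∀ y, y ∈ Subgroup.zpowers g)
    (hcard : ∃ p k : ℕ, p.Prime ∧ (Nat.card G = p^k ∨ Nat.card G = 2 * p^k))
    (P : ChainComplex (ModuleCat.{0} (MonoidAlgebra ℤ G)) ℕ)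
    [∀ n, Module.Finite (MonoidAlgebra ℤ G) (P.X n)]
    [∀ n, Module.Projective (MonoidAlgebra ℤ G) (P.X n)] (L : ℕ)
    (hL : ∀ n, L ≤ n → Subsingleton (P.X n))
    (h : Homotopy (mulBy (MonoidAlgebra.single g (1 : ℤ) - 1) P) 0) :
    ∑ n ∈ Finset.range L, (-1 : ℤ)^n • K0.cls (MonoidAlgebra ℤ G) (P.X n) ∈
      AddSubgroup.zmultiples (K0.cls (MonoidAlgebra ℤ G) (MonoidAlgebra ℤ G)) := by
  obtain ⟨s, hs0, hs1⟩ := exists_contraction _ h
  have h1 := euler_cyclic g hg hcard (shiftC P) (L+1) (by
    intro n hn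
    cases n with
    | zero => omega
    | succ n => exact hL n (by omega)) (shiftD P) (shiftS P s) (shift_hdd P) (by
    intro n y
    cases n with
    | zero =>
      have h2 : shiftD P 1 (shiftS P s 1 y) = (MonoidAlgebra.single g (1 : ℤ) - 1) • y := hs0 y
      have h3 : shiftS P s 0 (shiftD P 0 y) = 0 := rfl
      rw [h2, h3, add_zero]
    | succ n => exact hs1 n y)
  rw [Finset.sum_range_succ', K0.cls_of_subsingleton (shiftC P 0), smul_zero, add_zero] at h1
  have h2 : ∑ n ∈ Finset.range L, (-1 : ℤ)^(n+1) • K0.cls (MonoidAlgebra ℤ G) (shiftC P (n+1)) =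
      - ∑ n ∈ Finset.range L, (-1 : ℤ)^n • K0.cls (MonoidAlgebra ℤ G) (P.X n) := by
    rw [← Finset.sum_neg_distrib]
    refine Finset.sum_congr rfl (fun n _ => ?_)
    rw [pow_succ, mul_neg, mul_one, neg_smul]
    rfl
  rw [h2] at h1
  exact neg_mem_iff.1 h1

/-- The null homotopy for spaces with a homotopy unital product. -/
theorem exists_nullHomotopy {X E G : Type} [TopologicalSpace X] [TopologicalSpace E]
    [PathConnectedSpace E] [CommGroup G] [MulAction G E] [ContinuousConstSMul G E] {p : E → X}
    (hp : IsQuotientCoveringMap p G) (μ : C(X × X, X)) (e : X)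
    (hl : (μ.comp ((ContinuousMap.const X e).prodMk (ContinuousMap.id X))).Homotopic
      (ContinuousMap.id X))
    (hr : (μ.comp ((ContinuousMap.id X).prodMk (ContinuousMap.const X e))).Homotopic
      (ContinuousMap.id X)) (g : G)
    (P : ChainComplex (ModuleCat.{0} (MonoidAlgebra ℤ G)) ℕ)
    (f : HomotopyEquiv P (eqChains G E)) :
    Nonempty (Homotopy (mulBy (MonoidAlgebra.single g (1 : ℤ) - 1) P) 0) := by
  obtain ⟨H, h0, h1, he⟩ := exists_equivariant_homotopy hp mul_comm μ e hl hr g
  exact ⟨transport_null _ f (nullHomotopy g H h0 h1 he)⟩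

end Run7.h629
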