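import Pool.Agent.Run7.h629.CyclicAlg

namespace Run7.h629

open Polynomial

/-- A ring with an integral basis of powers of an element of finite order. -/
theorem polyQuot_of_basis {B : Type} [CommRing B] (x : B) (m : ℕ) (hm : 0 < m) (hx : x^m = 1)
    (hspan : ∀ b : B, ∃ c : ℕ → ℤ, b = ∑ i ∈ Finset.range m, (c i : B) * x^i)
    (hind : ∀ c : ℕ → ℤ, ∑ i ∈ Finset.range m, (c i : B) * x^i = 0 → ∀ i < m, c i = 0) :
    PolyQuot B x (X^m - 1) := by
  have hmon : ((X : ℤ[X])^m - 1).Monic := Xj_sub_one_monic _ hm
  have hF : aeval x ((X : ℤ[X])^m - 1) = 0 := by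
    rw [map_sub, map_pow, aeval_X, hx, map_one, sub_self]
  constructor
  · intro b
    obtain ⟨c, rfl⟩ := hspan b
    refine ⟨∑ i ∈ Finset.range m, Polynomial.C (c i) * X^i, ?_⟩
    simp
  · intro p
    constructor
    · intro hp
      rw [← modByMonic_eq_zero_iff_dvd hmon]
      have h1 : aeval x (p %ₘ (X^m - 1)) = 0 := by
        have h2 := modByMonic_add_div p (X^m - 1)
        have h3 := congrArg (aeval x) h2
        rwa [map_add, map_mul, hF, zero_mul, add_zero, hp] at h3
      set q := p %ₘ (X^m - 1) with hq
      have h5 : ((X : ℤ[X])^m - 1).natDegree = m := by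
        have := natDegree_X_pow_sub_C (n := m) (r := (1 : ℤ))
        simpa using this
      have hdeg : q.natDegree < m := by
        have h4 := natDegree_modByMonic_lt p hmon (by
          intro h5
          have h6 := congrArg (Polynomial.eval 0) h5
          rw [eval_sub, eval_pow, eval_X, eval_one, zero_pow hm.ne'] at h6
          norm_num at h6)
        rwa [h5] at h4
      rw [aeval_eq_sum_range' hdeg] at h1
      have h2 := hind q.coeff (by simpa using h1)
      ext i
      by_cases hi : i < m
      · exact h2 i hi
      · rw [coeff_zero]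
        exact coeff_eq_zero_of_natDegree_lt (by omega)
    · rintro ⟨q, rfl⟩
      rw [map_mul, hF, zero_mul]

lemma intCast_mul_single {G : Type} [CommGroup G] (n : ℤ) (y : G) :
    ((n : ℤ) : MonoidAlgebra ℤ G) * MonoidAlgebra.single y (1 : ℤ) =
      MonoidAlgebra.single y n := by
  rw [← zsmul_eq_mul]
  ext z
  simp

/-- The integral group ring of a finite cyclic group. -/
theorem polyQuot_groupRing {G : Type} [CommGroup G] [Finite G] (g : G)
    (hg : ∀ y, y ∈ Subgroup.zpowers g) :
    PolyQuot (MonoidAlgebra ℤ G) (MonoidAlgebra.single g (1 : ℤ)) (X^(Nat.card G) - 1) := by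
  classical
  have hord : orderOf g = Nat.card G := orderOf_eq_card_of_forall_mem_zpowers hg
  have hpos : 0 < Nat.card G := Nat.card_pos
  have hx : (MonoidAlgebra.single g (1 : ℤ))^(Nat.card G) = 1 := by
    rw [MonoidAlgebra.single_pow, pow_card_eq_one', one_pow]
    rfl
  have hterm : ∀ (c : ℕ → ℤ) (i : ℕ), ((c i : ℤ) : MonoidAlgebra ℤ G) *
      (MonoidAlgebra.single g (1 : ℤ))^i = MonoidAlgebra.single (g^i) (c i) := by
    intro c i
    rw [MonoidAlgebra.single_pow, one_pow, intCast_mul_single]
  refine polyQuot_of_basis _ _ hpos hx ?_ ?_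
  · intro b
    induction b using MonoidAlgebra.induction_linear with
    | zero => exact ⟨0, by simp⟩
    | add a b ha hb =>
      obtain ⟨c, rfl⟩ := ha
      obtain ⟨c', rfl⟩ := hb
      refine ⟨c + c', ?_⟩
      rw [← Finset.sum_add_distrib]
      refine Finset.sum_congr rfl (fun i _ => ?_)
      simp [add_mul]
    | single y n =>
      obtain ⟨j, hj⟩ := mem_powers_iff_mem_zpowers.2 (hg y)
      change g^j = y at hj
      subst hj
      refine ⟨fun i => if i = j % Nat.card G then n else 0, ?_⟩
      have hlt : j % Nat.card G < Nat.card G := Nat.mod_lt _ hpos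
      rw [Finset.sum_eq_single (j % Nat.card G)]
      · beta_reduce
        rw [if_pos rfl, MonoidAlgebra.single_pow, one_pow, intCast_mul_single, ← hord,
          pow_mod_orderOf]
      · intro i _ hi
        beta_reduce
        rw [if_neg hi]
        simp
      · intro h
        exact absurd (Finset.mem_range.2 hlt) h
  · intro c hc i hi
    have h1 := congrArg (fun z : MonoidAlgebra ℤ G => z.coeff (g^i)) hc
    simp only [hterm, MonoidAlgebra.coeff_sum, MonoidAlgebra.coeff_single,
      MonoidAlgebra.coeff_zero, Finsupp.coe_zero, Pi.zero_apply, Finsupp.finsetSum_apply] at h1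
    rw [Finset.sum_eq_single i] at h1
    · rwa [Finsupp.single_eq_same] at h1
    · intro j hj hji
      rw [Finsupp.single_apply, if_neg]
      intro h2
      apply hji
      have h3 := pow_injOn_Iio_orderOf (x := g) (by
        rw [Set.mem_Iio, hord]; exact Finset.mem_range.1 hj) (by
        rw [Set.mem_Iio, hord]; exact hi) h2
      exact h3
    · intro h
      exact absurd (Finset.mem_range.2 hi) h

end Run7.h629
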