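import Mathlib

namespace Run7.h629

/-- A finitely generated projective left module over a ring (bundled). -/
structure FGProj (R : Type) [Ring R] where
  carrier : Type
  [instAddCommGroup : AddCommGroup carrier]
  [instModule : Module R carrier]
  [instFinite : Module.Finite R carrier]
  [instProjective : Module.Projective R carrier]

attribute [instance] FGProj.instAddCommGroup FGProj.instModule FGProj.instFinite
  FGProj.instProjective

/-- Isomorphism of finitely generated projective modules. -/
instance FGProj.setoid (R : Type) [Ring R] : Setoid (FGProj R) where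
  r P Q := Nonempty (P.carrier ≃ₗ[R] Q.carrier)
  iseqv := ⟨fun _ => ⟨LinearEquiv.refl _ _⟩, fun ⟨e⟩ => ⟨e.symm⟩, fun ⟨e⟩ ⟨f⟩ => ⟨e.trans f⟩⟩

/-- Isomorphism classes of finitely generated projective modules. -/
def ProjClass (R : Type) [Ring R] : Type 1 := Quotient (FGProj.setoid R)

namespace ProjClass

variable {R : Type} [Ring R]

/-- The isomorphism class of a finitely generated projective module. -/
def mk (M : Type) [AddCommGroup M] [Module R M] [Module.Finite R M] [Module.Projective R M] :
    ProjClass R := Quotient.mk _ ⟨M⟩

lemma mk_eq_mk_iff (M N : Type) [AddCommGroup M] [Module R M] [Module.Finite R M]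
    [Module.Projective R M] [AddCommGroup N] [Module R N] [Module.Finite R N]
    [Module.Projective R N] : mk (R := R) M = mk N ↔ Nonempty (M ≃ₗ[R] N) :=
  Quotient.eq (r := FGProj.setoid R)

lemma mk_congr {M N : Type} [AddCommGroup M] [Module R M] [Module.Finite R M]
    [Module.Projective R M] [AddCommGroup N] [Module R N] [Module.Finite R N]
    [Module.Projective R N] (e : M ≃ₗ[R] N) : mk (R := R) M = mk N :=
  (mk_eq_mk_iff M N).2 ⟨e⟩

lemma ind {p : ProjClass R → Prop}
    (h : ∀ (M : Type) [AddCommGroup M] [Module R M] [Module.Finite R M] [Module.Projective R M],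
      p (mk M)) (x : ProjClass R) : p x := by
  induction x using Quotient.inductionOn with
  | h P => exact h P.carrier

/-- The direct sum of isomorphism classes. -/
instance : Add (ProjClass R) where
  add := Quotient.map₂ (fun P Q => ⟨P.carrier × Q.carrier⟩)
    (fun _ _ ⟨e⟩ _ _ ⟨f⟩ => ⟨e.prodCongr f⟩)

/-- The class of the zero module. -/
instance : Zero (ProjClass R) where
  zero := mk PUnit

/-- The monoid of isomorphism classes under direct sum. -/
instance : AddCommMonoid (ProjClass R) where
  add_assoc := by
    intro a b c
    induction a using ProjClass.ind with | h M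
    induction b using ProjClass.ind with | h N
    induction c using ProjClass.ind with | h K
    exact mk_congr (LinearEquiv.prodAssoc R M N K)
  zero_add := by
    intro a
    induction a using ProjClass.ind with | h M
    exact mk_congr (LinearEquiv.uniqueProd (M₂ := PUnit))
  add_zero := by
    intro a
    induction a using ProjClass.ind with | h M
    exact mk_congr (LinearEquiv.prodUnique (M₂ := PUnit))
  add_comm := by
    intro a b
    induction a using ProjClass.ind with | h M
    induction b using ProjClass.ind with | h N
    exact mk_congr (LinearEquiv.prodComm R M N)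
  nsmul := nsmulRec

lemma mk_add_mk (M N : Type) [AddCommGroup M] [Module R M] [Module.Finite R M]
    [Module.Projective R M] [AddCommGroup N] [Module R N] [Module.Finite R N]
    [Module.Projective R N] : mk (R := R) M + mk N = mk (M × N) := rfl

lemma zero_def : (0 : ProjClass R) = mk PUnit := rfl

end ProjClass

/-- The Grothendieck group of finitely generated projective modules. -/
abbrev K0 (R : Type) [Ring R] : Type 1 := Algebra.GrothendieckAddGroup (ProjClass R)

/-- The class of a finitely generated projective module in the Grothendieck group. -/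
noncomputable def K0.cls (R : Type) [Ring R] (M : Type) [AddCommGroup M] [Module R M]
    [Module.Finite R M] [Module.Projective R M] : K0 R :=
  Algebra.GrothendieckAddGroup.of (ProjClass.mk (R := R) M)

namespace K0

variable {R : Type} [Ring R]

lemma cls_congr {M N : Type} [AddCommGroup M] [Module R M] [Module.Finite R M]
    [Module.Projective R M] [AddCommGroup N] [Module R N] [Module.Finite R N]
    [Module.Projective R N] (e : M ≃ₗ[R] N) : cls R M = cls R N := by
  rw [cls, cls, ProjClass.mk_congr e]

lemma cls_prod (M N : Type) [AddCommGroup M] [Module R M] [Module.Finite R M]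
    [Module.Projective R M] [AddCommGroup N] [Module R N] [Module.Finite R N]
    [Module.Projective R N] : cls R (M × N) = cls R M + cls R N := by
  rw [cls, cls, cls, ← ProjClass.mk_add_mk, map_add]

lemma cls_of_subsingleton (M : Type) [AddCommGroup M] [Module R M] [Module.Finite R M]
    [Module.Projective R M] [Subsingleton M] : cls R M = 0 := by
  have e : M ≃ₗ[R] PUnit :=
    { toFun := fun _ => PUnit.unit, invFun := fun _ => 0, map_add' := fun _ _ => rfl
      map_smul' := fun _ _ => rfl, left_inv := fun _ => Subsingleton.elim _ _
      right_inv := fun _ => rfl }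
  rw [cls, ProjClass.mk_congr e, ← ProjClass.zero_def, map_zero]

lemma cls_eq_iff_exists (M N : Type) [AddCommGroup M] [Module R M] [Module.Finite R M]
    [Module.Projective R M] [AddCommGroup N] [Module R N] [Module.Finite R N]
    [Module.Projective R N] : cls R M = cls R N ↔ ∃ P : FGProj R,
      Nonempty ((M × P.carrier) ≃ₗ[R] (N × P.carrier)) := by
  have h1 : cls R M = cls R N ↔ ∃ c : (⊤ : AddSubmonoid (ProjClass R)),
      (c : ProjClass R) + ProjClass.mk (R := R) M = c + ProjClass.mk (R := R) N :=
    (AddLocalization.addMonoidOf (⊤ : AddSubmonoid (ProjClass R))).eq_iff_exists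
  rw [h1]
  constructor
  · rintro ⟨⟨c, hc⟩, h⟩
    induction c using ProjClass.ind with
    | h P =>
      refine ⟨⟨P⟩, ?_⟩
      change ProjClass.mk P + ProjClass.mk M = ProjClass.mk P + ProjClass.mk N at h
      rw [add_comm, ProjClass.mk_add_mk, add_comm, ProjClass.mk_add_mk,
        ProjClass.mk_eq_mk_iff] at h
      exact h
  · rintro ⟨P, h⟩
    refine ⟨⟨ProjClass.mk P.carrier, AddSubmonoid.mem_top _⟩, ?_⟩
    change ProjClass.mk P.carrier + ProjClass.mk M = ProjClass.mk P.carrier + ProjClass.mk N
    rw [add_comm, ProjClass.mk_add_mk, add_comm (ProjClass.mk P.carrier), ProjClass.mk_add_mk,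
        ProjClass.mk_eq_mk_iff]
    exact h

end K0

end Run7.h629
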