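import Pool.Agent.Run7.h629.PolyQ

namespace Run7.h629

open Polynomial

namespace PolyQuot

variable {A : Type} [CommRing A] {x : A} {F : ℤ[X]} (h : PolyQuot A x F)
include h

lemma one_ht (h1 : F.eval 1 ≠ 0) (a : A) (ha : (x - 1) * a = 0) : a = 0 := by
  obtain ⟨g, rfl⟩ := h.surj a
  have h2 : aeval x ((X - C 1) * g) = 0 := by
    rw [map_mul]
    simpa using ha
  obtain ⟨k, hk⟩ := (h.ker _).1 h2
  have h3 : k.eval 1 = 0 := by
    have := congrArg (Polynomial.eval 1) hk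
    rw [eval_mul, eval_mul] at this
    simp at this
    exact this.resolve_left h1
  obtain ⟨k', rfl⟩ := dvd_iff_isRoot.2 h3
  rw [h.ker]
  refine ⟨k', ?_⟩
  apply mul_left_cancel₀ (X_sub_C_ne_zero (1 : ℤ))
  linear_combination hk

lemma one_hS (a : A) : ∃ r : ℤ, ∃ b : A, a = algebraMap ℤ A r + (x - 1) * b := by
  obtain ⟨g, rfl⟩ := h.surj a
  obtain ⟨k, hk⟩ := dvd_iff_isRoot.2 (show (g - C (g.eval 1)).IsRoot 1 by simp)
  refine ⟨g.eval 1, aeval x k, ?_⟩
  have h2 : g = C (g.eval 1) + (X - C 1) * k := by rw [← hk]; ring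
  conv_lhs => rw [h2]
  simp

/-- An integer is a multiple of `x - 1` exactly if it is a multiple of `F(1)`. -/
lemma one_int (r : ℤ) : (∃ b : A, algebraMap ℤ A r = (x - 1) * b) ↔ F.eval 1 ∣ r := by
  constructor
  · rintro ⟨b, hb⟩
    obtain ⟨g, rfl⟩ := h.surj b
    have h2 : aeval x (C r - (X - C 1) * g) = 0 := by
      rw [map_sub, map_mul, aeval_C, hb]
      simp
    obtain ⟨k, hk⟩ := (h.ker _).1 h2
    have := congrArg (Polynomial.eval 1) hk
    rw [eval_mul, eval_sub, eval_mul] at this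
    simp at this
    exact ⟨_, this⟩
  · rintro ⟨c, rfl⟩
    obtain ⟨k, hk⟩ := dvd_iff_isRoot.2 (show (F - C (F.eval 1)).IsRoot 1 by simp)
    have h2 : aeval x F = 0 := (h.ker F).2 dvd_rfl
    have h3 : F = C (F.eval 1) + (X - C 1) * k := by rw [← hk]; ring
    have h4 : algebraMap ℤ A (F.eval 1) = (x - 1) * (- aeval x k) := by
      have h5 : aeval x F = algebraMap ℤ A (F.eval 1) + (x - 1) * aeval x k := by
        conv_lhs => rw [h3]
        simp
      rw [h2] at h5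
      linear_combination - h5
    exact ⟨- aeval x k * algebraMap ℤ A c, by rw [map_mul, h4]; ring⟩

lemma one_hK (hd : F.eval 1 ∣ F.derivative.eval 1) (r : ℤ)
    (hr : ∃ b : A, algebraMap ℤ A r = (x - 1) * b) :
    ∃ b : A, algebraMap ℤ A r = (x - 1)^2 * b := by
  obtain ⟨c, rfl⟩ := (h.one_int r).1 hr
  obtain ⟨k, hk⟩ := dvd_iff_isRoot.2 (show (F - C (F.eval 1)).IsRoot 1 by simp)
  obtain ⟨l, hl⟩ := dvd_iff_isRoot.2 (show (k - C (k.eval 1)).IsRoot 1 by simp)
  have h2 : aeval x F = 0 := (h.ker F).2 dvd_rfl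
  have h3 : F = C (F.eval 1) + (X - C 1) * k := by rw [← hk]; ring
  have h3' : k = C (k.eval 1) + (X - C 1) * l := by rw [← hl]; ring
  have hder : F.derivative.eval 1 = k.eval 1 := by
    have : F.derivative = derivative (C (F.eval 1) + (X - C 1) * k) := by rw [← h3]
    rw [this]
    simp
  rw [hder] at hd
  obtain ⟨e, he⟩ := hd
  have h5 : (0 : A) = algebraMap ℤ A (F.eval 1) + (x - 1) * (algebraMap ℤ A (F.eval 1) *
      algebraMap ℤ A e + (x - 1) * aeval x l) := by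
    rw [← h2]
    conv_lhs => rw [h3, h3']
    simp [he]
  set m : A := algebraMap ℤ A (F.eval 1)
  set ee : A := algebraMap ℤ A e
  set ll : A := aeval x l
  have h6 : m = (x - 1)^2 * (ee^2 * m - ll * (1 - ee * (x - 1))) := by
    linear_combination (-(1 - ee * (x - 1))) * h5
  refine ⟨(ee^2 * m - ll * (1 - ee * (x - 1))) * algebraMap ℤ A c, ?_⟩
  rw [map_mul]
  change m * _ = _
  linear_combination (algebraMap ℤ A c) * h6

lemma one_surj : Function.Surjective
    (algebraMap ℤ (A ⧸ Ideal.span {x - 1})) := by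
  intro y
  obtain ⟨a, rfl⟩ := Ideal.Quotient.mk_surjective y
  obtain ⟨r, b, rfl⟩ := h.one_hS a
  refine ⟨r, ?_⟩
  rw [map_add, map_mul, Ideal.Quotient.eq_zero_iff_mem.2 (Ideal.mem_span_singleton_self (x-1)),
    zero_mul, add_zero]
  rfl

lemma one_eq_zero_iff (r : ℤ) : algebraMap ℤ (A ⧸ Ideal.span {x - 1}) r = 0 ↔
    F.eval 1 ∣ r := by
  rw [← h.one_int]
  change Ideal.Quotient.mk _ (algebraMap ℤ A r) = 0 ↔ _
  rw [Ideal.Quotient.eq_zero_iff_mem, Ideal.mem_span_singleton']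
  constructor
  · rintro ⟨b, hb⟩
    exact ⟨b, by rw [← hb, mul_comm]⟩
  · rintro ⟨b, hb⟩
    exact ⟨b, by rw [hb, mul_comm]⟩

lemma one_finite (h1 : F.eval 1 ≠ 0) : Finite (A ⧸ Ideal.span {x - 1}) := by
  have : NeZero (F.eval 1).natAbs := ⟨by simpa using h1⟩
  let f : Fin (F.eval 1).natAbs → A ⧸ Ideal.span {x - 1} := fun i =>
    algebraMap ℤ _ ((i : ℕ) : ℤ)
  refine Finite.of_surjective f ?_
  intro y
  obtain ⟨r, rfl⟩ := h.one_surj y
  have h2 : 0 ≤ r % (F.eval 1) := Int.emod_nonneg _ h1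
  have h3 : r % (F.eval 1) < (F.eval 1).natAbs := by
    have := Int.emod_lt_abs r h1
    rwa [Int.abs_eq_natAbs] at this
  refine ⟨⟨(r % (F.eval 1)).toNat, by omega⟩, ?_⟩
  change algebraMap ℤ _ (((r % (F.eval 1)).toNat : ℕ) : ℤ) = _
  rw [Int.toNat_of_nonneg h2, ← sub_eq_zero, ← map_sub, h.one_eq_zero_iff]
  exact ⟨-(r / F.eval 1), by rw [Int.emod_def]; ring⟩

lemma one_local (p n : ℕ) (hp : p.Prime) (hn : 0 < n) (h1 : F.eval 1 = (p : ℤ)^n) :
    IsLocalRing (A ⧸ Ideal.span {x - 1}) := by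
  have hnt : Nontrivial (A ⧸ Ideal.span {x - 1}) := by
    refine ⟨⟨0, 1, ?_⟩⟩
    intro h0
    have h2 : algebraMap ℤ (A ⧸ Ideal.span {x - 1}) 1 = 0 := by rw [map_one, h0]
    rw [h.one_eq_zero_iff, h1] at h2
    have h3 : (p : ℤ) ∣ 1 := (dvd_pow_self _ hn.ne').trans h2
    have h4 := Int.le_of_dvd one_pos h3
    have := hp.two_le
    omega
  have key : ∀ r : ℤ, ¬ (p : ℤ) ∣ r → IsUnit (algebraMap ℤ (A ⧸ Ideal.span {x - 1}) r) := by
    intro r hr
    have hc : IsCoprime ((p : ℤ)^n) r := by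
      apply IsCoprime.pow_left
      exact ((Nat.prime_iff_prime_int.1 hp).coprime_iff_not_dvd).2 hr
    obtain ⟨a, b, hab⟩ := hc
    refine IsUnit.of_mul_eq_one (algebraMap ℤ _ b) ?_
    rw [← map_mul, ← sub_eq_zero, ← map_one (algebraMap ℤ (A ⧸ Ideal.span {x - 1})), ← map_sub,
      h.one_eq_zero_iff, h1]
    exact ⟨-a, by linear_combination hab⟩
  refine IsLocalRing.of_isUnit_or_isUnit_one_sub_self ?_
  intro y
  obtain ⟨r, rfl⟩ := h.one_surj y
  by_cases hr : (p : ℤ) ∣ r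
  · right
    rw [← map_one (algebraMap ℤ (A ⧸ Ideal.span {x - 1})), ← map_sub]
    apply key
    intro h2
    have h3 : (p : ℤ) ∣ 1 := by
      have := dvd_add h2 hr
      rwa [sub_add_cancel] at this
    have h4 := Int.le_of_dvd one_pos h3
    have := hp.two_le
    omega
  · left
    exact key r hr

/-- Step one for a polynomial quotient with `F(1)` a prime power. -/
theorem step_one (p n : ℕ) (hp : p.Prime) (hn : 0 < n) (h1 : F.eval 1 = (p : ℤ)^n)
    (hd : F.eval 1 ∣ F.derivative.eval 1) (C : ℕ → Type)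
    [∀ n, AddCommGroup (C n)] [∀ n, Module A (C n)] [∀ n, Module.Finite A (C n)]
    [∀ n, Module.Projective A (C n)] [Subsingleton (C 0)] (L : ℕ)
    (hL : ∀ n, L ≤ n → Subsingleton (C n)) (d : ∀ n, C (n+1) →ₗ[A] C n)
    (s : ∀ n, C n →ₗ[A] C (n+1)) (hdd : ∀ n y, d n (d (n+1) y) = 0)
    (hds : ∀ n y, d (n+1) (s (n+1) y) + s n (d n y) = (x - 1) • y) :
    ∑ n ∈ Finset.range L, (-1 : ℤ)^n • K0.cls A (C n) = 0 := by
  have h10 : F.eval 1 ≠ 0 := by
    rw [h1]
    exact pow_ne_zero _ (by exact_mod_cast hp.ne_zero)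
  exact step_one_local (R := ℤ) L hL (h.one_finite h10) (h.one_local p n hp hn h1)
    (h.one_ht h10) h.one_hS (h.one_hK hd) hdd hds

end PolyQuot

end Run7.h629
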