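import Pool.Agent.Run7.h629.StepA3

namespace Run7.h629

open Polynomial

/-- `B` is generated by `x` over the integers, with the single relation `F(x) = 0`. -/
structure PolyQuot (B : Type) [CommRing B] (x : B) (F : ℤ[X]) : Prop where
  surj : ∀ b : B, ∃ g : ℤ[X], aeval x g = b
  ker : ∀ g : ℤ[X], aeval x g = 0 ↔ F ∣ g

namespace PolyQuot

variable {B : Type} [CommRing B] {x : B}

/-- The quotient by `F₂(x)`. -/
lemma quot {F₁ F₂ : ℤ[X]} (h : PolyQuot B x (F₁ * F₂)) :
    PolyQuot (B ⧸ Ideal.span {aeval x F₂}) (Ideal.Quotient.mk _ x) F₂ := by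
  have haev : ∀ g : ℤ[X], aeval (Ideal.Quotient.mk (Ideal.span {aeval x F₂}) x) g =
      Ideal.Quotient.mk _ (aeval x g) := fun g => by
    have := Polynomial.aeval_algHom_apply
      ((Ideal.Quotient.mk (Ideal.span {aeval x F₂})).toIntAlgHom) x g
    exact this
  constructor
  · intro b
    obtain ⟨b, rfl⟩ := Ideal.Quotient.mk_surjective b
    obtain ⟨g, rfl⟩ := h.surj b
    exact ⟨g, haev g⟩
  · intro g
    refine Iff.trans ⟨fun h => (haev g).symm.trans h, fun h => (haev g).trans h⟩ ?_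
    rw [Ideal.Quotient.eq_zero_iff_mem, Ideal.mem_span_singleton']
    constructor
    · rintro ⟨c, hc⟩
      obtain ⟨k, rfl⟩ := h.surj c
      have h1 : aeval x (g - k * F₂) = 0 := by rw [map_sub, map_mul, hc, sub_self]
      obtain ⟨l, hl⟩ := (h.ker _).1 h1
      exact ⟨k + F₁ * l, by linear_combination hl⟩
    · rintro ⟨l, rfl⟩
      exact ⟨aeval x l, by rw [map_mul, mul_comm]⟩

lemma finite {F : ℤ[X]} (h : PolyQuot B x F) (hF : F.Monic) : Module.Finite ℤ B := by
  have h1 : IsIntegral ℤ x := ⟨F, hF, by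
    have := (h.ker F).2 dvd_rfl
    rwa [aeval_def] at this⟩
  have h2 := Algebra.finite_adjoin_simple_of_isIntegral h1
  have h3 : Algebra.adjoin ℤ {x} = ⊤ := by
    rw [eq_top_iff]
    intro b _
    obtain ⟨g, rfl⟩ := h.surj b
    exact aeval_mem_adjoin_singleton ℤ x
  rw [h3] at h2
  exact Module.Finite.equiv (Subalgebra.topEquiv (R := ℤ) (A := B)).toLinearEquiv

lemma torsionfree {F : ℤ[X]} (h : PolyQuot B x F) (hF : F.Monic) (n : ℤ) (b : B) (hn : n ≠ 0)
    (hb : (n : B) * b = 0) : b = 0 := by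
  obtain ⟨g, rfl⟩ := h.surj b
  have h1 : aeval x (C n * g) = 0 := by
    rw [map_mul, aeval_C]
    simpa using hb
  rw [h.ker] at h1 ⊢
  rw [← modByMonic_eq_zero_iff_dvd hF] at h1 ⊢
  have h2 : (C n * g) %ₘ F = C n * (g %ₘ F) := by
    rw [← smul_eq_C_mul, smul_modByMonic, smul_eq_C_mul]
  rw [h2] at h1
  rcases mul_eq_zero.1 h1 with h3 | h3
  · exact absurd (C_eq_zero.1 h3) hn
  · exact h3

/-- Evaluation at an integral root of the defining polynomial. -/
lemma exists_eval {F : ℤ[X]} (h : PolyQuot B x F) (r : ℤ) (hr : F.eval r = 0) :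
    ∃ ε : B →+* ℤ, ∀ g : ℤ[X], ε (aeval x g) = g.eval r := by
  choose g hg using h.surj
  have key : ∀ g g' : ℤ[X], aeval x g = aeval x g' → g.eval r = g'.eval r := by
    intro g g' hgg
    obtain ⟨k, hk⟩ := (h.ker (g - g')).1 (by rw [map_sub, hgg, sub_self])
    have h1 := congrArg (Polynomial.eval r) hk
    rw [eval_sub, eval_mul, hr, zero_mul] at h1
    exact sub_eq_zero.1 h1
  refine ⟨{ toFun := fun b => (g b).eval r, map_one' := ?_, map_mul' := ?_, map_zero' := ?_,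
            map_add' := ?_ }, ?_⟩
  · rw [key (g 1) 1 (by rw [hg, map_one]), eval_one]
  · intro a b
    rw [key (g (a * b)) (g a * g b) (by rw [hg, map_mul, hg, hg]), eval_mul]
  · rw [key (g 0) 0 (by rw [hg, map_zero]), eval_zero]
  · intro a b
    rw [key (g (a + b)) (g a + g b) (by rw [hg, map_add, hg, hg]), eval_add]
  · intro k
    exact key _ _ (hg _)

/-- The square data attached to a factorisation `(X - r) F₂`. -/
lemma squareData {F₂ : ℤ[X]} (r : ℤ) (h : PolyQuot B x ((X - C r) * F₂)) (hF₂ : F₂.Monic)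
    (M : ℤ) (hM : F₂.eval r = M) (hM2 : 2 ≤ M)
    (hu : ∀ w : ℕ, 1 < w → IsCoprime (w : ℤ) M → ∃ u v : ℤ[X], u.eval r = w ∧
      F₂ ∣ u * v - 1) :
    ∃ ε : B →+* ℤ, SquareData B (aeval x (X - C r)) (aeval x F₂) ε M := by
  have hmon : ((X - C r) * F₂).Monic := (monic_X_sub_C r).mul hF₂
  obtain ⟨ε, hε⟩ := h.exists_eval r (by simp)
  have hε0 : ∀ b, ε b = 0 ↔ ∃ c, b = aeval x (X - C r) * c := by
    intro b
    constructor
    · intro hb
      obtain ⟨g, rfl⟩ := h.surj b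
      rw [hε] at hb
      obtain ⟨k, rfl⟩ := dvd_iff_isRoot.2 hb
      exact ⟨aeval x k, by rw [map_mul]⟩
    · rintro ⟨c, rfl⟩
      rw [map_mul, hε]
      simp
  refine ⟨ε, hε0, ?_, ?_, ?_, hM2, ?_, h.finite hmon, ?_⟩
  · intro b
    obtain ⟨g, rfl⟩ := h.surj b
    rw [← map_mul, h.ker]
    constructor
    · intro hd
      obtain ⟨k, rfl⟩ := (mul_dvd_mul_iff_left (X_sub_C_ne_zero r)).1 hd
      exact ⟨aeval x k, by rw [map_mul]⟩
    · rintro ⟨c, hc⟩
      obtain ⟨k, rfl⟩ := h.surj c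
      rw [← map_mul] at hc
      have h1 : aeval x (g - F₂ * k) = 0 := by rw [map_sub, hc, sub_self]
      obtain ⟨l, hl⟩ := (h.ker _).1 h1
      exact ⟨k + (X - C r) * l, by linear_combination (X - C r) * hl⟩
  · intro b
    obtain ⟨g, rfl⟩ := h.surj b
    rw [← map_mul, h.ker, mul_comm (X - C r) F₂]
    constructor
    · intro hd
      obtain ⟨k, rfl⟩ := (mul_dvd_mul_iff_left hF₂.ne_zero).1 hd
      exact ⟨aeval x k, by rw [map_mul]⟩
    · rintro ⟨c, hc⟩
      obtain ⟨k, rfl⟩ := h.surj c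
      rw [← map_mul] at hc
      have h1 : aeval x (g - (X - C r) * k) = 0 := by rw [map_sub, hc, sub_self]
      obtain ⟨l, hl⟩ := (h.ker _).1 h1
      exact ⟨k + F₂ * l, by linear_combination F₂ * hl⟩
  · rw [hε, hM]
  · exact h.torsionfree hmon
  · intro w hw hc
    obtain ⟨u, v, h1, k, hk⟩ := hu w hw hc
    refine ⟨aeval x u, aeval x v, by rw [hε, h1], ?_⟩
    have h2 : aeval x (X - C r) * (aeval x u * aeval x v - 1) =
        aeval x ((X - C r) * (u * v - 1)) := by
      rw [map_mul, map_sub, map_sub, map_mul, map_one]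
    rw [h2, h.ker, hk]
    exact ⟨k, by ring⟩

end PolyQuot

end Run7.h629
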