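import Pool.Agent.Run7.h629.KZero

namespace Run7.h629

section

variable {R : Type*} [Ring R] {P M N W : Type*} [AddCommGroup P] [Module R P]
  [AddCommGroup M] [Module R M] [AddCommGroup N] [Module R N] [AddCommGroup W] [Module R W]

/-- A surjection onto a projective module splits. -/
noncomputable def splitEquiv (p : P →ₗ[R] M) (s : M →ₗ[R] P) (h : ∀ m, p (s m) = m) :
    P ≃ₗ[R] (LinearMap.ker p × M) where
  toFun y := (⟨y - s (p y), by simp [h]⟩, p y)
  map_add' a b := by
    ext <;> simp
    abel
  map_smul' r a := by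
    ext <;> simp [smul_sub]
  invFun km := km.1 + s km.2
  left_inv y := by simp
  right_inv km := by
    obtain ⟨⟨k, hk⟩, m⟩ := km
    have hk' : p k = 0 := hk
    ext <;> simp [h, hk']

lemma nonempty_split [Module.Projective R M] (p : P →ₗ[R] M) (hp : Function.Surjective p) :
    Nonempty (P ≃ₗ[R] (LinearMap.ker p × M)) := by
  obtain ⟨s, hs⟩ := Module.projective_lifting_property p LinearMap.id hp
  exact ⟨splitEquiv p s (fun m => LinearMap.congr_fun hs m)⟩

/-- The pullback of two maps. -/
def pullb (f : M →ₗ[R] W) (g : N →ₗ[R] W) : Submodule R (M × N) :=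
  LinearMap.ker (f ∘ₗ LinearMap.fst R M N - g ∘ₗ LinearMap.snd R M N)

lemma mem_pullb (f : M →ₗ[R] W) (g : N →ₗ[R] W) (x : M × N) :
    x ∈ pullb f g ↔ f x.1 = g x.2 := by
  simp [pullb, sub_eq_zero]

/-- Schanuel's lemma. -/
theorem schanuel [Module.Projective R M] [Module.Projective R N] (f : M →ₗ[R] W)
    (g : N →ₗ[R] W) (hf : Function.Surjective f) (hg : Function.Surjective g) :
    Nonempty ((LinearMap.ker f × N) ≃ₗ[R] (LinearMap.ker g × M)) := by
  let p1 : pullb f g →ₗ[R] M := LinearMap.fst R M N ∘ₗ (pullb f g).subtype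
  let p2 : pullb f g →ₗ[R] N := LinearMap.snd R M N ∘ₗ (pullb f g).subtype
  have h1 : Function.Surjective p1 := fun m => by
    obtain ⟨n, hn⟩ := hg (f m)
    exact ⟨⟨(m, n), (mem_pullb f g _).2 hn.symm⟩, rfl⟩
  have h2 : Function.Surjective p2 := fun n => by
    obtain ⟨m, hm⟩ := hf (g n)
    exact ⟨⟨(m, n), (mem_pullb f g _).2 hm⟩, rfl⟩
  obtain ⟨e1⟩ := nonempty_split p1 h1
  obtain ⟨e2⟩ := nonempty_split p2 h2
  have k1 : LinearMap.ker p1 ≃ₗ[R] LinearMap.ker g :=
    { toFun := fun x => ⟨x.1.1.2, by
        have h3 := (mem_pullb f g _).1 x.1.2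
        have h4 : x.1.1.1 = 0 := x.2
        rw [LinearMap.mem_ker, ← h3, h4, map_zero]⟩
      map_add' := fun _ _ => rfl
      map_smul' := fun _ _ => rfl
      invFun := fun n => ⟨⟨(0, n.1), (mem_pullb f g _).2 (by simp)⟩, rfl⟩
      left_inv := fun x => by
        have h4 : x.1.1.1 = 0 := x.2
        ext
        · exact h4.symm
        · rfl
      right_inv := fun n => rfl }
  have k2 : LinearMap.ker p2 ≃ₗ[R] LinearMap.ker f :=
    { toFun := fun x => ⟨x.1.1.1, by
        have h3 := (mem_pullb f g _).1 x.1.2
        have h4 : x.1.1.2 = 0 := x.2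
        rw [LinearMap.mem_ker, h3, h4, map_zero]⟩
      map_add' := fun _ _ => rfl
      map_smul' := fun _ _ => rfl
      invFun := fun n => ⟨⟨(n.1, 0), (mem_pullb f g _).2 (by simp)⟩, rfl⟩
      left_inv := fun x => by
        have h4 : x.1.1.2 = 0 := x.2
        ext
        · rfl
        · exact h4.symm
      right_inv := fun n => rfl }
  exact ⟨(k2.symm.prodCongr (LinearEquiv.refl R N)).trans
    (e2.symm.trans (e1.trans (k1.prodCongr (LinearEquiv.refl R M))))⟩

end

section Consequences

variable {R : Type} [Ring R]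

lemma finite_of_prod {M N : Type*} [AddCommGroup M] [Module R M] [AddCommGroup N] [Module R N]
    [Module.Finite R (M × N)] : Module.Finite R M :=
  Module.Finite.of_surjective (LinearMap.fst R M N) (fun m => ⟨(m, 0), rfl⟩)

lemma projective_of_prod {M N : Type*} [AddCommGroup M] [Module R M] [AddCommGroup N]
    [Module R N] [Module.Projective R (M × N)] : Module.Projective R M :=
  Module.Projective.of_split (LinearMap.inl R M N) (LinearMap.fst R M N) (by ext; rfl)

/-- In a bounded exact complex of finitely generated projective modules the boundaries are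
finitely generated projective and the alternating sum of classes vanishes. -/
theorem euler_of_exact (Z : ℕ → Type) [∀ n, AddCommGroup (Z n)] [∀ n, Module R (Z n)]
    [∀ n, Module.Finite R (Z n)] [∀ n, Module.Projective R (Z n)] [Subsingleton (Z 0)]
    (L : ℕ) (hL : ∀ n, L ≤ n → Subsingleton (Z n)) (d : ∀ n, Z (n+1) →ₗ[R] Z n)
    (hex : ∀ n, LinearMap.ker (d n) = LinearMap.range (d (n+1))) :
    ∑ n ∈ Finset.range L, (-1 : ℤ)^n • K0.cls R (Z n) = 0 := by
  have hfin : ∀ n, Module.Finite R (LinearMap.range (d n)) := fun n => inferInstance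
  have hproj : ∀ n, Module.Projective R (LinearMap.range (d n)) := by
    intro n
    induction n with
    | zero =>
      have : Subsingleton (LinearMap.range (d 0)) := inferInstance
      infer_instance
    | succ n ih =>
      obtain ⟨e⟩ := nonempty_split (d n).rangeRestrict (d n).surjective_rangeRestrict
      rw [LinearMap.ker_rangeRestrict, hex n] at e
      have h1 : Module.Projective R (LinearMap.range (d (n+1)) × LinearMap.range (d n)) :=
        Module.Projective.of_equiv e
      exact projective_of_prod (N := LinearMap.range (d n))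
  have hcls : ∀ n, K0.cls R (Z (n+1)) =
      K0.cls R (LinearMap.range (d (n+1))) + K0.cls R (LinearMap.range (d n)) := by
    intro n
    obtain ⟨e⟩ := nonempty_split (d n).rangeRestrict (d n).surjective_rangeRestrict
    rw [LinearMap.ker_rangeRestrict, hex n] at e
    rw [← K0.cls_prod]
    exact K0.cls_congr e
  -- telescoping
  have htel : ∀ m, ∑ n ∈ Finset.range (m+1), (-1 : ℤ)^n • K0.cls R (Z n) =
      (-1 : ℤ)^m • K0.cls R (LinearMap.range (d m)) := by
    intro m
    induction m with
    | zero =>
      have : Subsingleton (LinearMap.range (d 0)) := inferInstance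
      simp [K0.cls_of_subsingleton]
    | succ m ih =>
      rw [Finset.sum_range_succ, ih, hcls m, smul_add, pow_succ]
      simp
  cases L with
  | zero => simp
  | succ L =>
    rw [htel L]
    have h1 := hL (L+1) le_rfl
    have : Subsingleton (LinearMap.range (d L)) := by
      constructor
      rintro ⟨a, y, rfl⟩ ⟨b, z, rfl⟩
      rw [Subsingleton.elim y z]
    simp [K0.cls_of_subsingleton]

end Consequences

end Run7.h629
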