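import Pool.Agent.Run7.h629.StepSix

namespace Run7.h629

open scoped TensorProduct

/-- The arithmetic data used to compare projective modules over a ring and over the quotient
by the annihilator of an element `f₁` whose quotient ring is the ring of integers. -/
structure SquareData (B : Type) [CommRing B] (f₁ f₂ : B) (ε : B →+* ℤ) (M : ℤ) : Prop where
  hε : ∀ b, ε b = 0 ↔ ∃ c, b = f₁ * c
  h12 : ∀ b, f₁ * b = 0 ↔ ∃ c, b = f₂ * c
  h21 : ∀ b, f₂ * b = 0 ↔ ∃ c, b = f₁ * c
  hM : ε f₂ = M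
  hM2 : 2 ≤ M
  htf : ∀ (n : ℤ) (b : B), n ≠ 0 → (n : B) * b = 0 → b = 0
  hfin : Module.Finite ℤ B
  hu : ∀ w : ℕ, 1 < w → IsCoprime (w : ℤ) M → ∃ u v : B, ε u = w ∧ f₁ * (u * v - 1) = 0

namespace SquareData

variable {B : Type} [CommRing B] {f₁ f₂ : B} {ε : B →+* ℤ} {M : ℤ}
  (D : SquareData B f₁ f₂ ε M)
include D

omit D in
lemma ε_intCast (n : ℤ) : ε (n : B) = n := by simp

lemma f12 : f₁ * f₂ = 0 := (D.h12 f₂).2 ⟨1, by ring⟩

lemma sub_intCast (b : B) : ∃ c, b = (ε b : B) + f₁ * c := by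
  obtain ⟨c, hc⟩ := (D.hε (b - (ε b : B))).1 (by rw [map_sub, ε_intCast, sub_self])
  exact ⟨c, by rw [← hc]; ring⟩

lemma f22 : f₂ * f₂ = (M : B) * f₂ := by
  obtain ⟨c, hc⟩ := D.sub_intCast f₂
  rw [D.hM] at hc
  have h : f₂ * f₂ = ((M : B) + f₁ * c) * f₂ := by rw [← hc]
  rw [h]
  linear_combination c * D.f12

/-- The elements `u` generate the kernel of reduction modulo `w`. -/
lemma mem_u {w : ℕ} {u v : B} (h1 : ε u = w) (h2 : f₁ * (u * v - 1) = 0) (b : B) :
    (∃ k : ℤ, ε b = w * k) ↔ ∃ c, b = u * c := by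
  constructor
  · rintro ⟨k, hk⟩
    obtain ⟨c, hc⟩ := (D.hε (b - (k : B) * u)).1 (by
      rw [map_sub, map_mul, ε_intCast, h1, hk]; ring)
    refine ⟨(k : B) + v * f₁ * c, ?_⟩
    linear_combination hc - c * h2
  · rintro ⟨c, rfl⟩
    exact ⟨ε c, by rw [map_mul, h1]⟩

lemma u_regular {w : ℕ} (hw : 1 < w) {u v : B} (h1 : ε u = w) (h2 : f₁ * (u * v - 1) = 0) (b : B)
    (hb : u * b = 0) : b = 0 := by
  obtain ⟨y, hy⟩ := (D.h12 _).1 h2
  have h3 : b = f₂ * (- y * b) := by linear_combination v * hb - b * hy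
  have h4 : f₂ * (u * (- y * b)) = 0 := by linear_combination - u * h3 + hb
  obtain ⟨c, hc⟩ := (D.h21 _).1 h4
  have h5 : ε (u * (- y * b)) = 0 := (D.hε _).2 ⟨c, hc⟩
  rw [map_mul, h1] at h5
  have h6 : ε (- y * b) = 0 := by
    rcases mul_eq_zero.1 h5 with h | h
    · exact absurd h (by positivity)
    · exact h
  obtain ⟨c', hc'⟩ := (D.hε _).1 h6
  rw [h3, hc', ← mul_assoc, mul_comm f₂ f₁, D.f12, zero_mul]

/-- Finite abelian groups of order prime to `M` have class zero. -/
lemma hasClass_zmod {ι : Type} [Fintype ι] (n : ι → ℕ) (hn : ∀ i, 1 < n i)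
    (hc : ∀ i, IsCoprime (n i : ℤ) M) : HasClass ε (∀ i, ZMod (n i)) 0 := by
  choose u v hu1 hu2 using fun i => D.hu (n i) (hn i) (hc i)
  let G : (ι → B) →ₛₗ[ε] (∀ i, ZMod (n i)) :=
    { toFun := fun b i => ((ε (b i) : ℤ) : ZMod (n i))
      map_add' := fun b c => by ext i; simp
      map_smul' := fun r b => by ext i; simp }
  have hG : Function.Surjective G := fun y => by
    choose z hz using fun i => ZMod.intCast_surjective (y i)
    refine ⟨fun i => (z i : B), ?_⟩
    ext i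
    change ((ε (z i : B) : ℤ) : ZMod (n i)) = y i
    rw [ε_intCast, hz]
  let F : (ι → B) →ₗ[B] LinearMap.ker G :=
    { toFun := fun b => ⟨fun i => u i * b i, by
        rw [LinearMap.mem_ker]
        ext i
        change ((ε (u i * b i) : ℤ) : ZMod (n i)) = 0
        rw [map_mul, hu1]
        simp⟩
      map_add' := fun b c => by
        ext i
        exact mul_add _ _ _
      map_smul' := fun r b => by
        ext i
        exact mul_left_comm _ _ _ }
  have hF : Function.Bijective F := by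
    constructor
    · rw [← LinearMap.ker_eq_bot, LinearMap.ker_eq_bot']
      intro b hb
      ext i
      exact D.u_regular (hn i) (hu1 i) (hu2 i) _ (congrFun (congrArg Subtype.val hb) i)
    · rintro ⟨b, hb⟩
      have h1 : ∀ i, ∃ c, b i = u i * c := fun i => by
        rw [← D.mem_u (hu1 i) (hu2 i)]
        have h2 : ((ε (b i) : ℤ) : ZMod (n i)) = 0 := congrFun hb i
        exact (ZMod.intCast_zmod_eq_zero_iff_dvd _ _).1 h2
      choose c hc using h1
      exact ⟨c, by ext i; exact (hc i).symm⟩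
  have h := HasClass.mk' (ι → B) G hG (ι → B) (LinearEquiv.ofBijective F hF).symm
  rwa [sub_self] at h

/-- Multiplication by `f₂` on a projective module has kernel the multiples of `f₁`. -/
lemma smul_f₂ {N : Type} [AddCommGroup N] [Module B N] [Module.Finite B N]
    [Module.Projective B N] {y : N} (hy : f₂ • y = 0) : ∃ z, y = f₁ • z := by
  obtain ⟨k, f, g, -, hg, hfg⟩ := Module.Finite.exists_comp_eq_id_of_projective B N
  have h1 : ∀ l, ∃ c, g y l = f₁ * c := fun l => by
    rw [← D.h21]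
    have h2 := congrFun (congrArg g hy) l
    rw [map_smul, map_zero] at h2
    exact h2
  choose c hc using h1
  refine ⟨f c, ?_⟩
  rw [← map_smul]
  have h3 : g y = f₁ • c := funext hc
  rw [← h3]
  exact (LinearMap.congr_fun hfg y).symm

/-- Projective modules have no integer torsion. -/
lemma smul_int {N : Type} [AddCommGroup N] [Module B N] [Module.Finite B N]
    [Module.Projective B N] {n : ℤ} (hn : n ≠ 0) {y : N} (hy : (n : B) • y = 0) : y = 0 := by
  obtain ⟨k, f, g, -, hg, hfg⟩ := Module.Finite.exists_comp_eq_id_of_projective B N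
  apply hg
  rw [map_zero]
  ext l
  apply D.htf n _ hn
  have h2 := congrFun (congrArg g hy) l
  rw [map_smul, map_zero] at h2
  exact h2

/-- The lift of an isomorphism modulo `f₂` is injective. -/
lemma lift_injective {N₁ N₂ : Type} [AddCommGroup N₁] [Module B N₁] [Module.Finite B N₁]
    [Module.Projective B N₁] [AddCommGroup N₂] [Module B N₂] [Module.Finite B N₂]
    [Module.Projective B N₂] (α : Mq f₂ N₁ ≃ₗ[B] Mq f₂ N₂) (β : N₁ →ₗ[B] N₂)
    (hβ : ∀ y, mkq f₂ N₂ (β y) = α (mkq f₂ N₁ y)) : LinearMap.ker β = ⊥ := by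
  have hfin := D.hfin
  have i1 : Module.Finite ℤ N₁ := Module.Finite.trans B N₁
  have hM0 : M ≠ 0 := by have := D.hM2; omega
  have key : ∀ x : N₁, β x = 0 → ∃ y, β y = 0 ∧ (M : B) • y = x := by
    intro x hx
    have h1 : mkq f₂ N₁ x = 0 := by
      apply α.injective
      rw [← hβ, hx, map_zero, map_zero]
    obtain ⟨y, rfl⟩ := (mkq_eq_zero_iff f₂ x).1 h1
    rw [map_smul] at hx
    obtain ⟨z, hz⟩ := D.smul_f₂ hx
    obtain ⟨y', hy'⟩ := mkq_surj f₂ (α.symm (mkq f₂ N₂ z))
    have h2 : mkq f₂ N₁ (y - f₁ • y') = 0 := by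
      apply α.injective
      rw [← hβ, map_sub, map_smul, map_zero, map_sub, map_smul, hβ y', hy',
        LinearEquiv.apply_symm_apply, hz, map_smul, sub_self]
    obtain ⟨y'', hy''⟩ := (mkq_eq_zero_iff f₂ _).1 h2
    have h3 : f₂ • y = (M : B) • (f₂ • y'') := by
      have h4 : y = f₁ • y' + f₂ • y'' := by rw [hy'']; abel
      rw [h4, smul_add, smul_smul, mul_comm f₂ f₁, D.f12, zero_smul, zero_add, smul_smul, D.f22,
        ← smul_smul]
    refine ⟨f₂ • y'', ?_, h3.symm⟩
    apply D.smul_int hM0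
    rw [← map_smul, ← h3, map_smul, hx]
  -- Nakayama over the integers
  let K : Submodule ℤ N₁ := (LinearMap.ker β).restrictScalars ℤ
  have hK : K ≤ Ideal.span {M} • K := by
    intro x hx
    obtain ⟨y, hy, rfl⟩ := key x hx
    have h1 : (M : B) • y = M • y := by
      rw [Int.cast_smul_eq_zsmul]
    rw [h1]
    exact Submodule.smul_mem_smul (Ideal.mem_span_singleton_self M) hy
  have hKfg : K.FG := IsNoetherian.noetherian K
  obtain ⟨r, hr1, hr2⟩ :=
    Submodule.exists_sub_one_mem_and_smul_eq_zero_of_fg_of_le_smul _ K hKfg hK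
  have hr0 : r ≠ 0 := by
    rintro rfl
    obtain ⟨c, hc⟩ := Ideal.mem_span_singleton'.1 hr1
    have h1 : M ∣ 1 := ⟨-c, by linarith⟩
    have h2 := Int.le_of_dvd one_pos h1
    have := D.hM2
    omega
  rw [LinearMap.ker_eq_bot']
  intro x hx
  have h1 := hr2 x hx
  apply D.smul_int hr0
  rw [Int.cast_smul_eq_zsmul]
  exact h1

/-- Projective modules which become isomorphic modulo `f₂` have the same class. -/
theorem cls_eq_of_equiv (N₁ N₂ : Type) [AddCommGroup N₁] [Module B N₁] [Module.Finite B N₁]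
    [Module.Projective B N₁] [AddCommGroup N₂] [Module B N₂] [Module.Finite B N₂]
    [Module.Projective B N₂] (α : Mq f₂ N₁ ≃ₗ[B] Mq f₂ N₂) : K0.cls B N₁ = K0.cls B N₂ := by
  have hfin := D.hfin
  obtain ⟨β, hβ⟩ := Module.projective_lifting_property (mkq f₂ N₂)
    (α.toLinearMap ∘ₗ mkq f₂ N₁) (mkq_surj f₂)
  have hβ' : ∀ y, mkq f₂ N₂ (β y) = α (mkq f₂ N₁ y) := fun y => LinearMap.congr_fun hβ y
  have hinj := D.lift_injective α β hβ'
  -- the cokernel
  have hdec : ∀ z : N₂, ∃ y z', z = β y + f₂ • z' := by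
    intro z
    obtain ⟨y, hy⟩ := mkq_surj f₂ (α.symm (mkq f₂ N₂ z))
    have h1 : mkq f₂ N₂ (z - β y) = 0 := by
      rw [map_sub, hβ', hy, LinearEquiv.apply_symm_apply, sub_self]
    obtain ⟨z', hz'⟩ := (mkq_eq_zero_iff f₂ _).1 h1
    exact ⟨y, z', by rw [hz']; abel⟩
  let W := N₂ ⧸ LinearMap.range β
  let q : N₂ →ₗ[B] W := (LinearMap.range β).mkQ
  have hq : Function.Surjective q := Submodule.mkQ_surjective _
  have hqβ : ∀ y, q (β y) = 0 := fun y => (Submodule.Quotient.mk_eq_zero _).2 ⟨y, rfl⟩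
  have hf₁ : ∀ x : W, f₁ • x = 0 := by
    intro x
    obtain ⟨z, rfl⟩ := hq x
    obtain ⟨y, z', rfl⟩ := hdec z
    rw [map_add, hqβ, zero_add, map_smul, smul_smul, D.f12, zero_smul]
  have hact : ∀ (b : B) (x : W), b • x = ε b • x := by
    intro b x
    obtain ⟨c, hc⟩ := D.sub_intCast b
    conv_lhs => rw [hc]
    rw [add_smul, mul_comm, mul_smul, hf₁, smul_zero, add_zero, Int.cast_smul_eq_zsmul]
  have hWfin : Module.Finite ℤ W := by
    have : Module.Finite B W := inferInstance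
    exact Module.Finite.trans B W
  have hWM : (⊤ : Submodule ℤ W) ≤ Ideal.span {M} • (⊤ : Submodule ℤ W) := by
    intro x _
    obtain ⟨z, rfl⟩ := hq x
    obtain ⟨y, z', rfl⟩ := hdec z
    rw [map_add, hqβ, zero_add, map_smul, hact, D.hM]
    exact Submodule.smul_mem_smul (Ideal.mem_span_singleton_self M) Submodule.mem_top
  obtain ⟨r, hr1, hr2⟩ := Submodule.exists_sub_one_mem_and_smul_eq_zero_of_fg_of_le_smul
    _ (⊤ : Submodule ℤ W) Module.Finite.fg_top hWM
  obtain ⟨c, hc⟩ := Ideal.mem_span_singleton'.1 hr1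
  have hr0 : r ≠ 0 := by
    rintro rfl
    have h1 : M ∣ 1 := ⟨-c, by linarith⟩
    have h2 := Int.le_of_dvd one_pos h1
    have := D.hM2
    omega
  have hcop : IsCoprime r M := ⟨1, -c, by linarith⟩
  have hWF : Finite W := Module.finite_of_fg_torsion W (by
    intro x
    exact ⟨⟨r, mem_nonZeroDivisors_of_ne_zero hr0⟩, hr2 x Submodule.mem_top⟩)
  obtain ⟨ι, hι, n, hn, ⟨e⟩⟩ := AddCommGroup.equiv_directSum_zmod_of_finite' W
  let e' : W ≃+ (∀ i, ZMod (n i)) := e.trans (DirectSum.addEquivProd _)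
  have hn2 : ∀ i, IsCoprime (n i : ℤ) M := by
    intro i
    classical
    have h1 : r • (Pi.single i (1 : ZMod (n i)) : ∀ i, ZMod (n i)) = 0 := by
      obtain ⟨x, hx⟩ := e'.surjective (Pi.single i (1 : ZMod (n i)))
      rw [← hx, ← map_zsmul, hr2 x Submodule.mem_top, map_zero]
    have h2 := congrFun h1 i
    rw [Pi.smul_apply, Pi.single_eq_same, Pi.zero_apply, zsmul_eq_mul, mul_one,
      ZMod.intCast_zmod_eq_zero_iff_dvd] at h2
    exact IsCoprime.of_isCoprime_of_dvd_left hcop h2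
  have h0 : HasClass ε (∀ i, ZMod (n i)) 0 := D.hasClass_zmod n hn hn2
  have h1 : HasClass ε W 0 := h0.congr e'.symm.toIntLinearEquiv
  let g : N₂ →ₛₗ[ε] W :=
    { toFun := q
      map_add' := map_add q
      map_smul' := fun b z => by rw [map_smul, hact] }
  have hg : Function.Surjective g := hq
  let F : N₁ →ₗ[B] LinearMap.ker g :=
    { toFun := fun y => ⟨β y, hqβ y⟩
      map_add' := fun y z => Subtype.ext (map_add β y z)
      map_smul' := fun b y => Subtype.ext (map_smul β b y) }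
  have hF : Function.Bijective F := by
    constructor
    · rw [← LinearMap.ker_eq_bot, LinearMap.ker_eq_bot']
      intro y hy
      have h2 : β y = 0 := congrArg Subtype.val hy
      have h3 : y ∈ LinearMap.ker β := h2
      rwa [hinj] at h3
    · rintro ⟨z, hz⟩
      obtain ⟨y, hy⟩ := (Submodule.Quotient.mk_eq_zero _).1 hz
      exact ⟨y, Subtype.ext hy⟩
  have h2 := HasClass.mk' N₂ g hg N₁ (LinearEquiv.ofBijective F hF).symm
  exact (sub_eq_zero.1 (h2.unique h1)).symm

end SquareData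

end Run7.h629
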