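import Pool.Agent.Run7.h629.StepA2

namespace Run7.h629

open scoped TensorProduct

namespace K0

variable {R : Type} [Ring R]

lemma cls_eq_iff_free (M N : Type) [AddCommGroup M] [Module R M] [Module.Finite R M]
    [Module.Projective R M] [AddCommGroup N] [Module R N] [Module.Finite R N]
    [Module.Projective R N] : cls R M = cls R N ↔ ∃ c : ℕ,
      Nonempty ((M × (Fin c → R)) ≃ₗ[R] (N × (Fin c → R))) := by
  constructor
  · intro h
    obtain ⟨P, ⟨e⟩⟩ := (cls_eq_iff_exists M N).1 h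
    obtain ⟨m, f, g, hf, -, hfg⟩ := Module.Finite.exists_comp_eq_id_of_projective R P.carrier
    let eq : (Fin m → R) ≃ₗ[R] (LinearMap.ker f × P.carrier) :=
      splitEquiv f g (fun y => LinearMap.congr_fun hfg y)
    let eq' : (Fin m → R) ≃ₗ[R] (P.carrier × LinearMap.ker f) :=
      eq.trans (LinearEquiv.prodComm R _ _)
    refine ⟨m, ⟨?_⟩⟩
    exact ((LinearEquiv.refl R M).prodCongr eq').trans
      ((LinearEquiv.prodAssoc R M P.carrier (LinearMap.ker f)).symm.trans
        ((e.prodCongr (LinearEquiv.refl R (LinearMap.ker f))).trans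
          ((LinearEquiv.prodAssoc R N P.carrier (LinearMap.ker f)).trans
            ((LinearEquiv.refl R N).prodCongr eq'.symm))))
  · rintro ⟨c, h⟩
    exact (cls_eq_iff_exists M N).2 ⟨⟨Fin c → R⟩, h⟩

lemma cls_free (c : ℕ) : cls R (Fin c → R) = (c : ℤ) • cls R R := by
  induction c with
  | zero => simp [cls_of_subsingleton]
  | succ c ih =>
    rw [cls_congr (Fin.consLinearEquiv R (fun _ : Fin (c+1) => R)).symm, cls_prod, ih]
    push_cast
    rw [add_smul, one_smul, add_comm]

end K0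

section quot

variable {A : Type} [CommRing A] (t : A)

lemma coprod_mkq (N N' : Type) [AddCommGroup N] [Module A N] [AddCommGroup N'] [Module A N']
    (y : N) (z : N') : (mapq t (LinearMap.inl A N N')).coprod (mapq t (LinearMap.inr A N N'))
      (mkq t N y, mkq t N' z) = mkq t (N × N') (y, z) := by
  rw [LinearMap.coprod_apply]
  change mkq t _ (LinearMap.inl A N N' y) + mkq t _ (LinearMap.inr A N N' z) = _
  rw [← map_add]
  simp

/-- The quotient of a product by multiples of `t`. -/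
def MqProd (N N' : Type) [AddCommGroup N] [Module A N] [AddCommGroup N'] [Module A N'] :
    Mq t (N × N') ≃ₗ[A ⧸ Ideal.span {t}] (Mq t N × Mq t N') :=
  LinearEquiv.extendScalarsOfSurjective Ideal.Quotient.mk_surjective
    (LinearEquiv.ofLinearMap
      ((mapq t (LinearMap.fst A N N')).prod (mapq t (LinearMap.snd A N N')))
      ((mapq t (LinearMap.inl A N N')).coprod (mapq t (LinearMap.inr A N N'))) (by
        refine LinearMap.ext ?_
        rintro ⟨y, z⟩
        obtain ⟨y, rfl⟩ := mkq_surj t y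
        obtain ⟨z, rfl⟩ := mkq_surj t z
        rw [LinearMap.comp_apply, coprod_mkq]
        rfl) (by
        refine LinearMap.ext ?_
        intro y
        obtain ⟨⟨y, z⟩, rfl⟩ := mkq_surj t y
        exact coprod_mkq t N N' y z))

/-- The quotient of a free module by multiples of `t`. -/
noncomputable def MqFree (c : ℕ) :
    Mq t (Fin c → A) ≃ₗ[A ⧸ Ideal.span {t}] (Fin c → A ⧸ Ideal.span {t}) := by
  let G : (Fin c → A) →ₗ[A] (Fin c → A ⧸ Ideal.span {t}) :=
    { toFun := fun v l => Ideal.Quotient.mk _ (v l)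
      map_add' := fun v w => by ext l; simp
      map_smul' := fun r v => by ext l; rfl }
  have hG : Function.Surjective G := fun y => by
    choose x hx using fun l => Ideal.Quotient.mk_surjective (y l)
    exact ⟨x, funext hx⟩
  have hker : (Ideal.span {t} • (⊤ : Submodule A (Fin c → A))) = LinearMap.ker G := by
    ext v
    rw [mem_span_smul_top]
    constructor
    · rintro ⟨w, rfl⟩
      ext l
      change Ideal.Quotient.mk _ (t * w l) = 0
      rw [Ideal.Quotient.eq_zero_iff_mem]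
      exact Ideal.mul_mem_right _ _ (Ideal.mem_span_singleton_self t)
    · intro hv
      have h1 : ∀ l, ∃ c, t * c = v l := fun l => by
        have h2 : Ideal.Quotient.mk (Ideal.span {t}) (v l) = 0 := congrFun hv l
        rw [Ideal.Quotient.eq_zero_iff_mem] at h2
        obtain ⟨c, hc⟩ := Ideal.mem_span_singleton'.1 h2
        exact ⟨c, by rw [mul_comm, hc]⟩
      choose c hc using h1
      exact ⟨c, funext hc⟩
  exact LinearEquiv.extendScalarsOfSurjective Ideal.Quotient.mk_surjective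
    ((Submodule.quotEquivOfEq _ _ hker).trans (G.quotKerEquivOfSurjective hG))

end quot

attribute [local instance] finite_Mq projective_Mq

/-- Modules whose quotients have the same class have the same class. -/
theorem SquareData.cls_eq_of_cls_eq {B : Type} [CommRing B] {f₁ f₂ : B} {ε : B →+* ℤ} {M : ℤ}
    (D : SquareData B f₁ f₂ ε M) (P Q : Type) [AddCommGroup P] [Module B P] [Module.Finite B P]
    [Module.Projective B P] [AddCommGroup Q] [Module B Q] [Module.Finite B Q]
    [Module.Projective B Q] (h : K0.cls (B ⧸ Ideal.span {f₂}) (Mq f₂ P) =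
      K0.cls (B ⧸ Ideal.span {f₂}) (Mq f₂ Q)) : K0.cls B P = K0.cls B Q := by
  obtain ⟨c, ⟨e⟩⟩ := (K0.cls_eq_iff_free _ _).1 h
  let e2 : Mq f₂ (P × (Fin c → B)) ≃ₗ[B ⧸ Ideal.span {f₂}] Mq f₂ (Q × (Fin c → B)) :=
    (MqProd f₂ _ _).trans (((LinearEquiv.refl _ _).prodCongr (MqFree f₂ c)).trans
      (e.trans (((LinearEquiv.refl _ _).prodCongr (MqFree f₂ c).symm).trans
        (MqProd f₂ _ _).symm)))
  have h3 := D.cls_eq_of_equiv (P × (Fin c → B)) (Q × (Fin c → B)) (e2.restrictScalars B)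
  rw [K0.cls_prod, K0.cls_prod] at h3
  exact add_right_cancel h3

/-- Descent of the vanishing of the reduced Euler class from the quotient ring. -/
theorem SquareData.descend {B : Type} [CommRing B] {f₁ f₂ : B} {ε : B →+* ℤ} {M : ℤ}
    (D : SquareData B f₁ f₂ ε M) (C : ℕ → Type) [∀ n, AddCommGroup (C n)] [∀ n, Module B (C n)]
    [∀ n, Module.Finite B (C n)] [∀ n, Module.Projective B (C n)] (L : ℕ)
    (h : ∑ n ∈ Finset.range L, (-1 : ℤ)^n • K0.cls (B ⧸ Ideal.span {f₂}) (Mq f₂ (C n)) ∈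
      AddSubgroup.zmultiples (K0.cls (B ⧸ Ideal.span {f₂}) (B ⧸ Ideal.span {f₂}))) :
    ∑ n ∈ Finset.range L, (-1 : ℤ)^n • K0.cls B (C n) ∈
      AddSubgroup.zmultiples (K0.cls B B) := by
  have key : ∀ L : ℕ, ∃ (P Q : FGProj B),
      ∑ n ∈ Finset.range L, (-1 : ℤ)^n • K0.cls B (C n) =
        K0.cls B P.carrier - K0.cls B Q.carrier ∧
      ∑ n ∈ Finset.range L, (-1 : ℤ)^n • K0.cls (B ⧸ Ideal.span {f₂}) (Mq f₂ (C n)) =
        K0.cls (B ⧸ Ideal.span {f₂}) (Mq f₂ P.carrier) -
          K0.cls (B ⧸ Ideal.span {f₂}) (Mq f₂ Q.carrier) := by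
    intro L
    induction L with
    | zero => exact ⟨⟨PUnit⟩, ⟨PUnit⟩, by simp, by simp⟩
    | succ L ih =>
      obtain ⟨P, Q, h1, h2⟩ := ih
      rcases Nat.even_or_odd L with hL | hL
      · refine ⟨⟨P.carrier × C L⟩, Q, ?_, ?_⟩
        · rw [Finset.sum_range_succ, hL.neg_one_pow, one_smul, h1, K0.cls_prod]
          abel
        · rw [Finset.sum_range_succ, hL.neg_one_pow, one_smul, h2,
            K0.cls_congr (MqProd f₂ P.carrier (C L)), K0.cls_prod]
          abel
      · refine ⟨P, ⟨Q.carrier × C L⟩, ?_, ?_⟩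
        · rw [Finset.sum_range_succ, hL.neg_one_pow, neg_smul, one_smul, h1, K0.cls_prod]
          abel
        · rw [Finset.sum_range_succ, hL.neg_one_pow, neg_smul, one_smul, h2,
            K0.cls_congr (MqProd f₂ Q.carrier (C L)), K0.cls_prod]
          abel
  obtain ⟨P, Q, h1, h2⟩ := key L
  obtain ⟨c, hc⟩ := AddSubgroup.mem_zmultiples_iff.1 h
  rw [h1]
  rw [← hc] at h2
  rw [AddSubgroup.mem_zmultiples_iff]
  obtain ⟨m, rfl | rfl⟩ := Int.eq_nat_or_neg c
  · refine ⟨m, ?_⟩
    have h3 : K0.cls (B ⧸ Ideal.span {f₂}) (Mq f₂ P.carrier) =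
        K0.cls (B ⧸ Ideal.span {f₂}) (Mq f₂ (Q.carrier × (Fin m → B))) := by
      rw [K0.cls_congr (MqProd f₂ Q.carrier (Fin m → B)), K0.cls_prod,
        K0.cls_congr (MqFree f₂ m), K0.cls_free, h2]
      abel
    rw [D.cls_eq_of_cls_eq _ _ h3, K0.cls_prod, K0.cls_free]
    abel
  · refine ⟨-m, ?_⟩
    have h3 : K0.cls (B ⧸ Ideal.span {f₂}) (Mq f₂ Q.carrier) =
        K0.cls (B ⧸ Ideal.span {f₂}) (Mq f₂ (P.carrier × (Fin m → B))) := by
      rw [K0.cls_congr (MqProd f₂ P.carrier (Fin m → B)), K0.cls_prod,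
        K0.cls_congr (MqFree f₂ m), K0.cls_free]
      have h4 : (m : ℤ) • K0.cls (B ⧸ Ideal.span {f₂}) (B ⧸ Ideal.span {f₂}) =
        K0.cls (B ⧸ Ideal.span {f₂}) (Mq f₂ Q.carrier) -
          K0.cls (B ⧸ Ideal.span {f₂}) (Mq f₂ P.carrier) := by
        rw [← neg_sub, ← h2, neg_smul, neg_neg]
      rw [h4]
      abel
    rw [D.cls_eq_of_cls_eq _ _ h3, K0.cls_prod, K0.cls_free]
    rw [neg_smul]
    abel

end Run7.h629
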