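import Pool.Agent.Run7.h629.StepFour

namespace Run7.h629

open scoped TensorProduct

section

variable {A : Type} [CommRing A] (t : A) (C : ℕ → Type) [∀ n, AddCommGroup (C n)]
  [∀ n, Module A (C n)]
  (d : ∀ n, C (n+1) →ₗ[A] C n) (s : ∀ n, C n →ₗ[A] C (n+1))

/-- The operator `x s` on the quotient complex. -/
def opa (x : ∀ n, Mq t (C (n+1)) →ₗ[A] Mq t (C n)) (n : ℕ) : Module.End A (Mq t (C n)) :=
  x n ∘ₗ mapq t (s n)

variable {C d s} in
/-- Properties of the powers of `x s` on the quotient complex. -/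
theorem opa_pow_properties
    (hds : ∀ n y, d (n+1) (s (n+1) y) + s n (d n y) = t • y)
    (x : ∀ n, Mq t (C (n+1)) →ₗ[A] Mq t (C n)) (w : ∀ n, Mq t (C n) →ₗ[A] Mq t (C (n+1)))
    (i1 : ∀ n y, mapq t (d n) (x (n+1) y) + x n (mapq t (d (n+1)) y) = 0)
    (i2 : ∀ n y, x (n+1) (mapq t (s (n+1)) y) + mapq t (s n) (x n y)
        + mapq t (d (n+1)) (w (n+1) y) + w n (mapq t (d n) y) = y)
    (i3 : ∀ n z, mapq t (d (n+1)) z = 0 → ∃ c, d n c = 0 ∧ mkq t (C (n+1)) c = x (n+1) z)
    (i4 : ∀ n c, d n c = 0 → ∃ u, x n (mkq t (C (n+1)) c) = mapq t (d n) u) (k : ℕ) :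
    (∀ n y, mapq t (d n) ((opa t C s x (n+1) ^ k) y) = (opa t C s x n ^ k) (mapq t (d n) y)) ∧
    (∀ n c, d n c = 0 → ∃ u, (opa t C s x (n+1) ^ k) (mkq t (C (n+1)) c) =
      mkq t (C (n+1)) c + mapq t (d (n+1)) u) ∧
    (0 < k → ∀ n z, mapq t (d n) z = 0 → ∃ c, d n c = 0 ∧
      mkq t (C (n+1)) c = (opa t C s x (n+1) ^ k) z) := by
  have hdsq0 : ∀ n y, mapq t (d (n+1)) (mapq t (s (n+1)) y) = - mapq t (s n) (mapq t (d n) y) := by
    intro n y
    obtain ⟨y, rfl⟩ := mkq_surj t y
    have h1 : mapq t (d (n+1)) (mapq t (s (n+1)) (mkq t _ y)) +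
      mapq t (s n) (mapq t (d n) (mkq t _ y)) = 0 := by
      rw [mapq_mkq, mapq_mkq, mapq_mkq, mapq_mkq, ← map_add, hds, map_smul, smul_Mq]
    exact eq_neg_of_add_eq_zero_left h1
  have c1 : ∀ n y, mapq t (d n) (opa t C s x (n+1) y) = opa t C s x n (mapq t (d n) y) := by
    intro n y
    change mapq t (d n) (x (n+1) (mapq t (s (n+1)) y)) = x n (mapq t (s n) (mapq t (d n) y))
    have h1 := i1 n (mapq t (s (n+1)) y)
    rw [hdsq0, map_neg] at h1
    exact add_neg_eq_zero.1 h1
  have c1k : ∀ k n y, mapq t (d n) ((opa t C s x (n+1) ^ k) y) =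
      (opa t C s x n ^ k) (mapq t (d n) y) := by
    intro k
    induction k with
    | zero => intro n y; rfl
    | succ k ih =>
      intro n y
      rw [pow_succ', pow_succ', Module.End.mul_apply, Module.End.mul_apply, c1, ih]
  have c2 : ∀ n c, d n c = 0 → ∃ u, opa t C s x (n+1) (mkq t (C (n+1)) c) =
      mkq t (C (n+1)) c + mapq t (d (n+1)) u := by
    intro n c hc
    obtain ⟨u, hu⟩ := i4 n c hc
    refine ⟨mapq t (s (n+1)) u - w (n+1) (mkq t (C (n+1)) c), ?_⟩
    change x (n+1) (mapq t (s (n+1)) (mkq t (C (n+1)) c)) = _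
    have h1 := i2 n (mkq t (C (n+1)) c)
    rw [hu, mapq_mkq t (d n), hc, map_zero, map_zero, add_zero] at h1
    rw [map_sub, hdsq0]
    have h2 : x (n+1) (mapq t (s (n+1)) (mkq t (C (n+1)) c)) = mkq t (C (n+1)) c -
      mapq t (s n) (mapq t (d n) u) - mapq t (d (n+1)) (w (n+1) (mkq t (C (n+1)) c)) := by
      refine eq_sub_iff_add_eq.2 (eq_sub_iff_add_eq.2 ?_)
      rw [add_right_comm]
      exact h1
    rw [h2]
    abel
  have c2k : ∀ k n c, d n c = 0 → ∃ u, (opa t C s x (n+1) ^ k) (mkq t (C (n+1)) c) =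
      mkq t (C (n+1)) c + mapq t (d (n+1)) u := by
    intro k
    induction k with
    | zero => intro n c _; exact ⟨0, by simp⟩
    | succ k ih =>
      intro n c hc
      obtain ⟨u, hu⟩ := ih n c hc
      obtain ⟨v, hv⟩ := c2 n c hc
      refine ⟨v + opa t C s x (n+2) u, ?_⟩
      rw [pow_succ', Module.End.mul_apply, hu, map_add, hv, map_add, c1]
      abel
  have c3 : ∀ n z, mapq t (d n) z = 0 → ∃ c, d n c = 0 ∧
      mkq t (C (n+1)) c = opa t C s x (n+1) z := by
    intro n z hz
    exact i3 n (mapq t (s (n+1)) z) (by rw [hdsq0, hz, map_zero, neg_zero])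
  refine ⟨c1k k, c2k k, ?_⟩
  intro hk n z hz
  obtain ⟨k, rfl⟩ : ∃ j, k = j + 1 := ⟨k - 1, by omega⟩
  rw [pow_succ', Module.End.mul_apply]
  exact c3 n _ (by rw [c1k, hz, map_zero])

end

section

variable {A : Type} [CommRing A] {t : A} {C : ℕ → Type} [∀ n, AddCommGroup (C n)]
  [∀ n, Module A (C n)] [∀ n, Module.Finite A (C n)] [∀ n, Module.Projective A (C n)]
  {d : ∀ n, C (n+1) →ₗ[A] C n} {s : ∀ n, C n →ₗ[A] C (n+1)}

/-- The projection as a semilinear map over the quotient ring. -/
def mkqS (t : A) (N : Type) [AddCommGroup N] [Module A N] :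
    N →ₛₗ[Ideal.Quotient.mk (Ideal.span {t})] Mq t N where
  toFun := mkq t N
  map_add' := map_add _
  map_smul' _ _ := rfl

/-- Linear maps over `A` between quotients by `t` are linear over the quotient ring. -/
def toS {N N' : Type} [AddCommGroup N] [Module A N] [AddCommGroup N'] [Module A N']
    (f : Mq t N →ₗ[A] Mq t N') : Mq t N →ₗ[A ⧸ Ideal.span {t}] Mq t N' where
  toFun := f
  map_add' := f.map_add
  map_smul' r y := by
    obtain ⟨r, rfl⟩ := Ideal.Quotient.mk_surjective r
    exact f.map_smul r y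

/-- The quotient of a projective module is projective over the quotient ring. -/
lemma projective_Mq (t : A) (N : Type) [AddCommGroup N] [Module A N] [Module.Finite A N]
    [Module.Projective A N] : Module.Projective (A ⧸ Ideal.span {t}) (Mq t N) :=
  Module.Projective.of_equiv ((TensorProduct.quotTensorEquivQuotSMul N
    (Ideal.span {t})).extendScalarsOfSurjective Ideal.Quotient.mk_surjective)

lemma finite_Mq (t : A) (N : Type) [AddCommGroup N] [Module A N] [Module.Finite A N] :
    Module.Finite (A ⧸ Ideal.span {t}) (Mq t N) :=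
  Module.Finite.of_restrictScalars_finite A _ _

/-- The kernel of a surjection from a projective module onto a module with a class. -/
lemma HasClass.ker_of {A S : Type} [Ring A] [Ring S] {σ : A →+* S} {E : Type} [AddCommGroup E]
    [Module S E] {k : K0 A} (h : HasClass σ E k) (N : Type) [AddCommGroup N] [Module A N]
    [Module.Finite A N] [Module.Projective A N] (g : N →ₛₗ[σ] E) (hg : Function.Surjective g) :
    Module.Finite A (LinearMap.ker g) ∧ Module.Projective A (LinearMap.ker g) := by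
  obtain ⟨N', g', hg', i1, i2, -⟩ := h
  obtain ⟨f⟩ := schanuelS g g' hg hg'
  have j1 : Module.Finite A (LinearMap.ker g × N'.carrier) := Module.Finite.equiv f.symm
  have j2 : Module.Projective A (LinearMap.ker g × N'.carrier) :=
    Module.Projective.of_equiv f.symm
  exact ⟨finite_of_prod (N := N'.carrier), projective_of_prod (N := N'.carrier)⟩

/-- The complex argument: given an idempotent with the good properties, the class of the complex
is computed by the classes of the images of the idempotent. -/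
theorem class_of_idem [Subsingleton (C 0)] (L : ℕ) (hL : ∀ n, L ≤ n → Subsingleton (C n))
    (hfin : Finite (A ⧸ Ideal.span {t}))
    (ht : ∀ a : A, t * a = 0 → a = 0)
    (hdd : ∀ n y, d n (d (n+1) y) = 0)
    (hds : ∀ n y, d (n+1) (s (n+1) y) + s n (d n y) = t • y)
    (e : ∀ n, Module.End A (Mq t (C n))) (he : ∀ n, IsIdempotentElem (e n))
    (e1 : ∀ n y, mapq t (d n) (e (n+1) y) = e n (mapq t (d n) y))
    (e2 : ∀ n c, d n c = 0 → ∃ u, e (n+1) (mkq t (C (n+1)) c) =
      mkq t (C (n+1)) c + mapq t (d (n+1)) u)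
    (e3 : ∀ n z, mapq t (d n) z = 0 → ∃ c, d n c = 0 ∧ mkq t (C (n+1)) c = e (n+1) z)
    (ν : ℤ) (hν : ∀ P : MaximalSpectrum (A ⧸ Ideal.span {t}),
      ∑ n ∈ Finset.range L, (-1 : ℤ)^n * (rk P (LinearMap.range (toS (e n))) : ℤ) = ν) :
    ∑ n ∈ Finset.range L, (-1 : ℤ)^n • K0.cls A (C n) = 0 := by
  have j1 : ∀ n, Module.Projective (A ⧸ Ideal.span {t}) (Mq t (C n)) :=
    fun n => projective_Mq t (C n)
  have j2 : ∀ n, Module.Finite (A ⧸ Ideal.span {t}) (Mq t (C n)) := fun n => finite_Mq t (C n)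
  have hee : ∀ n y, e n (e n y) = e n y := fun n y => LinearMap.congr_fun (he n) y
  -- the images of the idempotents are projective
  have j3 : ∀ n, Module.Projective (A ⧸ Ideal.span {t}) (LinearMap.range (toS (e n))) := by
    intro n
    refine Module.Projective.of_split (LinearMap.range (toS (e n))).subtype
      (toS (e n)).rangeRestrict ?_
    ext y
    obtain ⟨_, z, rfl⟩ := y
    exact hee n z
  have j4 : ∀ n, Module.Finite (A ⧸ Ideal.span {t}) (LinearMap.range (toS (e n))) :=
    fun n => inferInstance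
  -- the kernel
  let g : ∀ n, C n →ₛₗ[Ideal.Quotient.mk (Ideal.span {t})] LinearMap.range (toS (e n)) :=
    fun n => (toS (e n)).rangeRestrict.comp (mkqS t (C n))
  have hg : ∀ n, Function.Surjective (g n) := fun n =>
    (toS (e n)).surjective_rangeRestrict.comp (mkq_surj t)
  have hgmem : ∀ n c, c ∈ LinearMap.ker (g n) ↔ e n (mkq t (C n) c) = 0 := by
    intro n c
    rw [LinearMap.mem_ker]
    exact Subtype.ext_iff
  have hfree := hasClass_free (σ := Ideal.Quotient.mk (Ideal.span {t})) t ht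
    Ideal.Quotient.mk_surjective Ideal.mk_ker
  -- the class of `Mq t (C n)` is zero, and it splits
  have hD : ∀ n, HasClass (Ideal.Quotient.mk (Ideal.span {t})) (Mq t (C n)) 0 := by
    intro n
    have h1 : Function.Surjective (mkqS t (C n)) := mkq_surj t
    let F : C n →ₗ[A] LinearMap.ker (mkqS t (C n)) :=
      { toFun := fun y => ⟨t • y, (mkq_eq_zero_iff t _).2 ⟨y, rfl⟩⟩
        map_add' := fun y z => Subtype.ext (smul_add t y z)
        map_smul' := fun r y => Subtype.ext (smul_comm t r y) }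
    have hF : Function.Bijective F := by
      constructor
      · intro y z hyz
        exact smul_cancel_of_projective t ht (congrArg Subtype.val hyz)
      · rintro ⟨y, hy⟩
        obtain ⟨z, hz⟩ := (mkq_eq_zero_iff t y).1 hy
        exact ⟨z, Subtype.ext hz⟩
    have h2 := HasClass.mk' (C n) (mkqS t (C n)) h1 (C n) (LinearEquiv.ofBijective F hF).symm
    rwa [sub_self] at h2
  -- the kernels of `g n` are projective
  have hE : ∀ n, ∃ k, HasClass (Ideal.Quotient.mk (Ideal.span {t}))
      (LinearMap.range (toS (e n))) k := by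
    intro n
    have h1 := (hD n).congr (splitEquiv (toS (e n)).rangeRestrict
      (LinearMap.range (toS (e n))).subtype (by
        rintro ⟨_, z, rfl⟩
        exact Subtype.ext (hee n z)))
    obtain ⟨k₁, -, h2⟩ := h1.of_prod
    exact ⟨_, h2⟩
  choose k hk using hE
  have hZ := fun n => (hk n).ker_of (C n) (g n) (hg n)
  have hZ1 : ∀ n, Module.Finite A (LinearMap.ker (g n)) := fun n => (hZ n).1
  have hZ2 : ∀ n, Module.Projective A (LinearMap.ker (g n)) := fun n => (hZ n).2
  have hk2 : ∀ n, k n = K0.cls A (C n) - K0.cls A (LinearMap.ker (g n)) := fun n =>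
    (hk n).unique (HasClass.mk' (C n) (g n) (hg n) _ (LinearEquiv.refl A _))
  -- the alternating sum of the classes of the images
  have hMS : Finite (MaximalSpectrum (A ⧸ Ideal.span {t})) := inferInstance
  have h1 := alt_sum_eq_zero hfree (fun n => LinearMap.range (toS (e n))) k hk L ν hν
  -- the kernel complex
  have hdZ : ∀ n, ∀ c ∈ LinearMap.ker (g (n+1)), d n c ∈ LinearMap.ker (g n) := by
    intro n c hc
    rw [hgmem] at hc ⊢
    rw [← mapq_mkq, ← e1, hc, map_zero]
  let dZ : ∀ n, LinearMap.ker (g (n+1)) →ₗ[A] LinearMap.ker (g n) := fun n =>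
    (d n).restrict (hdZ n)
  have hexact : ∀ n, LinearMap.ker (dZ n) = LinearMap.range (dZ (n+1)) := by
    intro n
    apply le_antisymm
    · rintro ⟨z, hz⟩ hdz
      have hdz' : d n z = 0 := congrArg Subtype.val hdz
      rw [hgmem] at hz
      obtain ⟨u, hu⟩ := e2 n z hdz'
      obtain ⟨y, rfl⟩ := mkq_surj t u
      rw [hz, mapq_mkq, ← map_add] at hu
      obtain ⟨c₁, hc₁⟩ := (mkq_eq_zero_iff t _).1 hu.symm
      have h2 : d n c₁ = 0 := by
        apply smul_cancel_of_projective t ht
        rw [smul_zero, ← map_smul, hc₁, map_add, hdz', hdd, add_zero]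
      have h3 : d (n+1) (s (n+1) c₁) = t • c₁ := by
        have := hds n c₁
        rwa [h2, map_zero, add_zero] at this
      have h4 : d (n+1) (s (n+1) c₁ - y) = z := by
        rw [map_sub, h3, hc₁]
        abel
      have h5 : mapq t (d (n+1)) (e (n+2) (mkq t _ (s (n+1) c₁ - y))) = 0 := by
        rw [e1, mapq_mkq, h4, hz]
      obtain ⟨c', hc', hc''⟩ := e3 (n+1) _ h5
      rw [hee] at hc''
      refine ⟨⟨s (n+1) c₁ - y - c', ?_⟩, ?_⟩
      · rw [hgmem, map_sub, hc'', map_sub, hee, sub_self]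
      · apply Subtype.ext
        change d (n+1) (s (n+1) c₁ - y - c') = z
        rw [map_sub, h4, hc', sub_zero]
    · rintro _ ⟨y, rfl⟩
      apply Subtype.ext
      exact hdd n y.1
  have hsub0 : Subsingleton (LinearMap.ker (g 0)) := inferInstance
  have hsubL : ∀ n, L ≤ n → Subsingleton (LinearMap.ker (g n)) := fun n hn => by
    have := hL n hn
    infer_instance
  have h2 := euler_of_exact (fun n => LinearMap.ker (g n)) L hsubL dZ hexact
  have h3 : ∑ n ∈ Finset.range L, (-1 : ℤ)^n • K0.cls A (C n) =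
      ∑ n ∈ Finset.range L, (-1 : ℤ)^n • k n +
        ∑ n ∈ Finset.range L, (-1 : ℤ)^n • K0.cls A (LinearMap.ker (g n)) := by
    rw [← Finset.sum_add_distrib]
    refine Finset.sum_congr rfl (fun n _ => ?_)
    rw [← smul_add, hk2 n, sub_add_cancel]
  rw [h3, h1, h2, add_zero]

end

end Run7.h629
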