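import Pool.Agent.Run7.h629.StepThree

namespace Run7.h629

open scoped TensorProduct

section free

variable {A S : Type} [CommRing A] [CommRing S] {σ : A →+* S}

/-- The free modules over a quotient by a nonzerodivisor have class zero. -/
lemma hasClass_free (t : A) (ht : ∀ a : A, t * a = 0 → a = 0) (hσ : Function.Surjective σ)
    (hker : RingHom.ker σ = Ideal.span {t}) (b : ℕ) : HasClass σ (Fin b → S) 0 := by
  have hker' : ∀ a : A, σ a = 0 → ∃ c, a = t * c := fun a ha => by
    have : a ∈ Ideal.span {t} := by rw [← hker]; exact ha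
    obtain ⟨c, hc⟩ := Ideal.mem_span_singleton'.1 this
    exact ⟨c, by rw [← hc, mul_comm]⟩
  have hker2 : ∀ c : A, σ (t * c) = 0 := fun c => by
    have : t * c ∈ RingHom.ker σ := by
      rw [hker]
      exact Ideal.mul_mem_right _ _ (Ideal.mem_span_singleton_self t)
    exact this
  let G : (Fin b → A) →ₛₗ[σ] (Fin b → S) :=
    { toFun := fun v l => σ (v l)
      map_add' := fun v w => by ext l; simp
      map_smul' := fun r v => by ext l; simp }
  have hG : Function.Surjective G := fun y => by
    choose x hx using fun l => hσ (y l)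
    exact ⟨x, funext hx⟩
  let F : (Fin b → A) →ₗ[A] LinearMap.ker G :=
    { toFun := fun w => ⟨fun l => t * w l, by
        ext l
        exact hker2 (w l)⟩
      map_add' := fun v w => by
        ext l
        exact mul_add t _ _
      map_smul' := fun r v => by
        ext l
        exact mul_left_comm t r (v l) }
  have hF : Function.Bijective F := by
    constructor
    · rw [← LinearMap.ker_eq_bot, LinearMap.ker_eq_bot']
      intro w hw
      ext l
      have h1 := congrFun (congrArg Subtype.val hw) l
      exact ht _ h1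
    · rintro ⟨v, hv⟩
      choose c hc using fun l => hker' (v l) (congrFun hv l)
      refine ⟨c, ?_⟩
      ext l
      exact (hc l).symm
  have h := HasClass.mk' (Fin b → A) G hG (Fin b → A) (LinearEquiv.ofBijective F hF).symm
  rwa [sub_self] at h

end free

section rank

variable {S : Type} [CommRing S]

/-- The rank of a module at a maximal ideal. -/
noncomputable def rk (P : MaximalSpectrum S) (E : Type) [AddCommGroup E] [Module S E] : ℕ :=
  Module.finrank (S ⧸ P.asIdeal) ((S ⧸ P.asIdeal) ⊗[S] E)

variable (P : MaximalSpectrum S) (E E' : Type) [AddCommGroup E] [Module S E]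
  [AddCommGroup E'] [Module S E']

lemma rk_prod [Module.Finite S E] [Module.Finite S E'] :
    rk P (E × E') = rk P E + rk P E' := by
  let := Ideal.Quotient.field P.asIdeal
  rw [rk, rk, rk, (TensorProduct.prodRight S (S ⧸ P.asIdeal) (S ⧸ P.asIdeal) E E').finrank_eq,
    Module.finrank_prod]

variable {E E'} in
lemma rk_congr (e : E ≃ₗ[S] E') : rk P E = rk P E' :=
  (e.baseChange S (S ⧸ P.asIdeal) E E').finrank_eq

lemma rk_free (b : ℕ) : rk P (Fin b → S) = b := by
  have : Nontrivial S := ⟨⟨0, 1, fun h => P.isMaximal.ne_top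
    ((Ideal.eq_top_iff_one _).2 (h ▸ P.asIdeal.zero_mem))⟩⟩
  have : Nontrivial (S ⧸ P.asIdeal) := Ideal.Quotient.nontrivial_iff.2 P.isMaximal.ne_top
  rw [rk, Module.finrank_baseChange]
  simp

end rank

section altsum

variable {A S : Type} [CommRing A] [CommRing S] {σ : A →+* S}

/-- If the alternating sum of ranks is the same at every maximal ideal then the alternating sum
of the classes vanishes. -/
theorem alt_sum_eq_zero [Finite (MaximalSpectrum S)] (hfree : ∀ b, HasClass σ (Fin b → S) 0)
    (E : ℕ → Type) [∀ n, AddCommGroup (E n)] [∀ n, Module S (E n)] [∀ n, Module.Finite S (E n)]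
    [∀ n, Module.Projective S (E n)] (k : ℕ → K0 A) (hk : ∀ n, HasClass σ (E n) (k n)) (L : ℕ)
    (ν : ℤ) (hν : ∀ P : MaximalSpectrum S,
      ∑ n ∈ Finset.range L, (-1 : ℤ)^n * (rk P (E n) : ℤ) = ν) :
    ∑ n ∈ Finset.range L, (-1 : ℤ)^n • k n = 0 := by
  have key : ∀ L : ℕ, ∃ (F : FGProj S) (c : ℤ),
      HasClass σ F.carrier (∑ n ∈ Finset.range L, (-1 : ℤ)^n • k n) ∧
      ∀ P : MaximalSpectrum S, (rk P F.carrier : ℤ) =
        ∑ n ∈ Finset.range L, (-1 : ℤ)^n * (rk P (E n) : ℤ) + c := by
    intro L
    induction L with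
    | zero =>
      refine ⟨⟨Fin 0 → S⟩, 0, ?_, ?_⟩
      · simpa using hfree 0
      · intro P
        simp [rk_free]
    | succ L ih =>
      obtain ⟨F, c, hF, hr⟩ := ih
      rcases Nat.even_or_odd L with hL | hL
      · refine ⟨⟨F.carrier × E L⟩, c, ?_, ?_⟩
        · rw [Finset.sum_range_succ, hL.neg_one_pow, one_smul]
          exact hF.prod (hk L)
        · intro P
          rw [Finset.sum_range_succ, hL.neg_one_pow, rk_prod, Nat.cast_add, hr P]
          ring
      · obtain ⟨m, f, g, hf, -, hfg⟩ := Module.Finite.exists_comp_eq_id_of_projective S (E L)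
        let eq : (Fin m → S) ≃ₗ[S] (LinearMap.ker f × E L) :=
          splitEquiv f g (fun y => LinearMap.congr_fun hfg y)
        have i1 : Module.Finite S (LinearMap.ker f × E L) := Module.Finite.equiv eq
        have i2 : Module.Projective S (LinearMap.ker f × E L) := Module.Projective.of_equiv eq
        have i3 : Module.Finite S (LinearMap.ker f) := finite_of_prod (N := E L)
        have i4 : Module.Projective S (LinearMap.ker f) := projective_of_prod (N := E L)
        have h0 : HasClass σ (LinearMap.ker f × E L) 0 := (hfree m).congr eq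
        obtain ⟨k₁, h1, h2⟩ := h0.of_prod
        have h3 := h2.unique (hk L)
        have h4 : k₁ = - k L := by
          rw [← h3]; abel
        rw [h4] at h1
        refine ⟨⟨F.carrier × LinearMap.ker f⟩, c + m, ?_, ?_⟩
        · rw [Finset.sum_range_succ, hL.neg_one_pow, neg_smul, one_smul]
          exact hF.prod h1
        · intro P
          have h5 : (m : ℤ) = rk P (LinearMap.ker f) + rk P (E L) := by
            rw [← Nat.cast_add, ← rk_prod, ← rk_congr P eq, rk_free]
          rw [Finset.sum_range_succ, hL.neg_one_pow, rk_prod, Nat.cast_add, hr P, h5]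
          ring
  obtain ⟨F, c, hF, hr⟩ := key L
  have hrank : ∀ P : MaximalSpectrum S,
      Module.finrank (S ⧸ P.asIdeal) ((S ⧸ P.asIdeal) ⊗[S] F.carrier) = (ν + c).toNat := by
    intro P
    have h1 := hr P
    rw [hν P] at h1
    rw [← h1]
    rfl
  obtain ⟨b⟩ := Module.nonempty_basis_of_flat_of_finrank_eq S F.carrier _ hrank
  exact hF.unique ((hfree _).congr b.equivFun.symm)

end altsum

end Run7.h629
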