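import Pool.Agent.Run7.h629.Schanuel

namespace Run7.h629

section quotients

variable {A : Type*} [CommRing A] (t : A) {N : Type*} [AddCommGroup N] [Module A N]

lemma mem_span_smul_top (x : N) :
    x ∈ (Ideal.span {t} • (⊤ : Submodule A N)) ↔ ∃ y : N, t • y = x := by
  rw [Submodule.ideal_span_singleton_smul]
  constructor
  · intro h
    obtain ⟨y, -, hy⟩ := (Submodule.mem_smul_pointwise_iff_exists x t ⊤).1 h
    exact ⟨y, hy⟩
  · rintro ⟨y, hy⟩
    exact (Submodule.mem_smul_pointwise_iff_exists x t ⊤).2 ⟨y, Submodule.mem_top, hy⟩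

variable (N) in
/-- The quotient of a module by the multiples of a ring element. -/
abbrev Mq : Type _ := N ⧸ (Ideal.span {t} • (⊤ : Submodule A N))

variable (N) in
/-- The projection to the quotient by the multiples of a ring element. -/
abbrev mkq : N →ₗ[A] Mq t N := Submodule.mkQ _

lemma mkq_eq_iff (x y : N) : mkq t N x = mkq t N y ↔ ∃ z : N, t • z = x - y := by
  rw [← mem_span_smul_top]
  exact Submodule.Quotient.eq _

lemma mkq_eq_zero_iff (x : N) : mkq t N x = 0 ↔ ∃ z : N, t • z = x := by
  rw [← mem_span_smul_top]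
  exact Submodule.Quotient.mk_eq_zero _

lemma mkq_surj : Function.Surjective (mkq t N) := Submodule.mkQ_surjective _

lemma smul_Mq (y : Mq t N) : t • y = 0 := by
  obtain ⟨n, rfl⟩ := mkq_surj t y
  rw [← map_smul]
  exact (mkq_eq_zero_iff t _).2 ⟨n, rfl⟩

/-- The map induced on the quotients. -/
def mapq {N' : Type*} [AddCommGroup N'] [Module A N'] (f : N →ₗ[A] N') :
    Mq t N →ₗ[A] Mq t N' :=
  Submodule.mapQ _ _ f (by
    intro x hx
    obtain ⟨y, rfl⟩ := (mem_span_smul_top t x).1 hx
    rw [Submodule.mem_comap, map_smul]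
    exact (mem_span_smul_top t _).2 ⟨_, rfl⟩)

lemma mapq_mkq {N' : Type*} [AddCommGroup N'] [Module A N'] (f : N →ₗ[A] N') (n : N) :
    mapq t f (mkq t N n) = mkq t N' (f n) := rfl

variable (N) in
/-- Division of `t`-multiples. -/
def thetaq : Mq t N →ₗ[A] Mq (t^2) N :=
  Submodule.mapQ _ _ (LinearMap.lsmul A N t) (by
    intro x hx
    obtain ⟨y, rfl⟩ := (mem_span_smul_top t x).1 hx
    rw [Submodule.mem_comap]
    refine (mem_span_smul_top (t^2) _).2 ⟨y, ?_⟩
    rw [LinearMap.lsmul_apply, smul_smul, pow_two])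

lemma thetaq_mkq (n : N) : thetaq t N (mkq t N n) = mkq (t^2) N (t • n) := rfl

variable (N) in
/-- The projection from the quotient by `t^2` to the quotient by `t`. -/
def projq : Mq (t^2) N →ₗ[A] Mq t N :=
  Submodule.mapQ _ _ LinearMap.id (by
    intro x hx
    obtain ⟨y, rfl⟩ := (mem_span_smul_top (t^2) x).1 hx
    rw [Submodule.mem_comap]
    refine (mem_span_smul_top t _).2 ⟨t • y, ?_⟩
    rw [LinearMap.id_apply, smul_smul, pow_two])

lemma projq_mkq (n : N) : projq t N (mkq (t^2) N n) = mkq t N n := rfl

lemma thetaq_projq (y : Mq (t^2) N) : thetaq t N (projq t N y) = t • y := by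
  obtain ⟨n, rfl⟩ := mkq_surj (t^2) y
  rw [projq_mkq, thetaq_mkq, map_smul]

lemma projq_eq_zero_iff (y : Mq (t^2) N) : projq t N y = 0 ↔ ∃ z, thetaq t N z = y := by
  obtain ⟨n, rfl⟩ := mkq_surj (t^2) y
  rw [projq_mkq, mkq_eq_zero_iff]
  constructor
  · rintro ⟨z, rfl⟩
    exact ⟨mkq t N z, rfl⟩
  · rintro ⟨z, hz⟩
    obtain ⟨z, rfl⟩ := mkq_surj t z
    rw [thetaq_mkq, mkq_eq_iff] at hz
    obtain ⟨u, hu⟩ := hz
    refine ⟨z - t • u, ?_⟩
    rw [smul_sub, smul_smul, ← pow_two, hu]
    abel

lemma mapq_thetaq {N' : Type*} [AddCommGroup N'] [Module A N'] (f : N →ₗ[A] N')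
    (y : Mq t N) : mapq (t^2) f (thetaq t N y) = thetaq t N' (mapq t f y) := by
  obtain ⟨n, rfl⟩ := mkq_surj t y
  rw [thetaq_mkq, mapq_mkq, mapq_mkq, thetaq_mkq, map_smul]

lemma projq_mapq {N' : Type*} [AddCommGroup N'] [Module A N'] (f : N →ₗ[A] N')
    (y : Mq (t^2) N) : projq t N' (mapq (t^2) f y) = mapq t f (projq t N y) := by
  obtain ⟨n, rfl⟩ := mkq_surj (t^2) y
  rfl

/-- A nonzerodivisor acts injectively on a projective module. -/
lemma smul_cancel_of_projective [Module.Finite A N] [Module.Projective A N]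
    (ht : ∀ a : A, t * a = 0 → a = 0) {x y : N} (h : t • x = t • y) : x = y := by
  obtain ⟨k, f, g, -, hg, -⟩ := Module.Finite.exists_comp_eq_id_of_projective A N
  apply hg
  ext l
  have h1 : t * (g x l - g y l) = 0 := by
    have h2 := congrFun (congrArg g h) l
    rw [map_smul, map_smul] at h2
    simp only [Pi.smul_apply, smul_eq_mul] at h2
    rw [mul_sub, h2, sub_self]
  exact sub_eq_zero.1 (ht _ h1)

lemma thetaq_injective [Module.Finite A N] [Module.Projective A N]
    (ht : ∀ a : A, t * a = 0 → a = 0) : Function.Injective (thetaq t N) := by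
  rw [← LinearMap.ker_eq_bot, LinearMap.ker_eq_bot']
  intro y hy
  obtain ⟨n, rfl⟩ := mkq_surj t y
  rw [thetaq_mkq, mkq_eq_zero_iff] at hy
  obtain ⟨z, hz⟩ := hy
  rw [mkq_eq_zero_iff]
  refine ⟨z, smul_cancel_of_projective t ht ?_⟩
  rw [smul_smul, ← pow_two, hz]

end quotients

section linearity

variable {R A : Type*} [CommRing R] [CommRing A] [Algebra R A] (t : A)
variable {N N' : Type*} [AddCommGroup N] [Module A N] [Module R N] [IsScalarTower R A N]
  [AddCommGroup N'] [Module A N'] [Module R N'] [IsScalarTower R A N']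

/-- If the base ring surjects onto `A / t` then linear maps over the base ring between quotients
by `t` are linear over `A`. -/
lemma map_smul_of_surj (hS : ∀ a : A, ∃ r : R, ∃ b : A, a = algebraMap R A r + t * b)
    (f : Mq t N →ₗ[R] Mq t N') (a : A) (y : Mq t N) : f (a • y) = a • f y := by
  obtain ⟨r, b, hr⟩ := hS a
  have h1 : a • y = r • y := by
    have h2 : (t * b) • y = 0 := by
      have h3 : (t * b) • y = t • (b • y) := mul_smul t b y
      rw [h3]
      exact smul_Mq t (b • y)
    have h4 : a • y = algebraMap R A r • y + (t * b) • y := by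
      rw [hr]
      exact add_smul _ _ _
    rw [h4, h2, add_zero]
    exact algebraMap_smul A r y
  have h1' : a • f y = r • f y := by
    have h2 : (t * b) • f y = 0 := by
      have h3 : (t * b) • f y = t • (b • f y) := mul_smul t b (f y)
      rw [h3]
      exact smul_Mq t (b • f y)
    have h4 : a • f y = algebraMap R A r • f y + (t * b) • f y := by
      rw [hr]
      exact add_smul _ _ _
    rw [h4, h2, add_zero]
    exact algebraMap_smul A r (f y)
  rw [h1, h1']
  exact f.map_smul r y

/-- Linear maps over the base ring between quotients by `t`, as linear maps over `A`. -/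
def toLin (hS : ∀ a : A, ∃ r : R, ∃ b : A, a = algebraMap R A r + t * b)
    (f : Mq t N →ₗ[R] Mq t N') : Mq t N →ₗ[A] Mq t N' where
  toFun := f
  map_add' := f.map_add
  map_smul' := map_smul_of_surj t hS f

/-- division by `t` of linear maps. -/
lemma exists_div {Y : Type*} [AddCommGroup Y] [Module R Y] (hinj : Function.Injective (thetaq t N))
    (g : Y →ₗ[R] Mq (t^2) N) (hg : ∀ y, projq t N (g y) = 0) :
    ∃ x : Y →ₗ[R] Mq t N, ∀ y, thetaq t N (x y) = g y := by
  choose x hx using fun y => (projq_eq_zero_iff t (g y)).1 (hg y)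
  refine ⟨{ toFun := x, map_add' := ?_, map_smul' := ?_ }, hx⟩
  · intro y z
    apply hinj
    rw [hx, map_add, map_add, hx, hx]
  · intro r y
    apply hinj
    rw [hx, map_smul, RingHom.id_apply, ← algebraMap_smul A r (x y), map_smul, hx,
      algebraMap_smul]

/-- The section of `N / t^2 → N / t`, linear over the base ring. -/
lemma exists_section [Module.Finite A N] [Module.Projective A N]
    (hS : ∀ a : A, ∃ r : R, ∃ b : A, a = algebraMap R A r + t * b)
    (hK : ∀ r : R, (∃ b : A, algebraMap R A r = t * b) → ∃ b : A, algebraMap R A r = t^2 * b) :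
    ∃ σ : Mq t N →ₗ[R] Mq (t^2) N, ∀ y, projq t N (σ y) = y := by
  choose ρ β hρ using hS
  obtain ⟨k, r, i, -, -, hri⟩ := Module.Finite.exists_comp_eq_id_of_projective A N
  have hri' : ∀ n, r (i n) = n := fun n => LinearMap.congr_fun hri n
  -- the comparison principle
  have key : ∀ (u v : Fin k → R), (∀ l, ∃ b : A, algebraMap R A (u l - v l) = t * b) →
      mkq (t^2) N (r (fun l => algebraMap R A (u l))) =
        mkq (t^2) N (r (fun l => algebraMap R A (v l))) := by
    intro u v huv
    choose b hb using fun l => hK _ (huv l)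
    rw [mkq_eq_iff]
    refine ⟨r b, ?_⟩
    rw [← map_smul, ← map_sub]
    congr 1
    ext l
    simp only [Pi.smul_apply, smul_eq_mul, Pi.sub_apply]
    rw [← hb l, map_sub]
  let s' : N →ₗ[R] Mq (t^2) N :=
    { toFun := fun n => mkq (t^2) N (r (fun l => algebraMap R A (ρ (i n l))))
      map_add' := by
        intro m n
        rw [← map_add, ← map_add]
        have h1 : ((fun l => algebraMap R A (ρ (i m l))) + fun l => algebraMap R A (ρ (i n l)))
            = fun l => algebraMap R A (ρ (i m l) + ρ (i n l)) := by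
          ext l; simp
        rw [h1]
        apply key
        intro l
        refine ⟨β (i m l) + β (i n l) - β (i (m+n) l), ?_⟩
        have e1 := hρ (i m l)
        have e2 := hρ (i n l)
        have e3 := hρ (i (m+n) l)
        have e4 : i (m+n) l = i m l + i n l := by rw [map_add]; rfl
        rw [(algebraMap R A).map_sub, (algebraMap R A).map_add]
        linear_combination e1 + e2 - e3 + e4
      map_smul' := by
        intro c n
        rw [RingHom.id_apply, ← algebraMap_smul A c (mkq (t^2) N _), ← map_smul, ← map_smul]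
        have h1 : (algebraMap R A c • fun l => algebraMap R A (ρ (i n l)))
            = fun l => algebraMap R A (c * ρ (i n l)) := by
          ext l; simp
        rw [h1]
        apply key
        intro l
        refine ⟨algebraMap R A c * β (i n l) - β (i (c • n) l), ?_⟩
        have e1 := hρ (i n l)
        have e3 := hρ (i (c • n) l)
        have e4 : i (c • n) l = algebraMap R A c * i n l := by
          rw [← algebraMap_smul A c n, map_smul]; rfl
        rw [map_sub, map_mul]
        linear_combination algebraMap R A c * e1 - e3 + e4 }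
  have hs' : ∀ n, s' (t • n) = 0 := by
    intro n
    change mkq (t^2) N (r (fun l => algebraMap R A (ρ (i (t • n) l)))) = 0
    have h0 : mkq (t^2) N (r (fun l => algebraMap R A ((0 : Fin k → R) l))) = 0 := by
      have : (fun l => algebraMap R A ((0 : Fin k → R) l)) = 0 := by ext l; simp
      rw [this, map_zero, map_zero]
    rw [← h0]
    apply key
    intro l
    refine ⟨i n l - β (i (t • n) l), ?_⟩
    have e3 := hρ (i (t • n) l)
    have e4 : i (t • n) l = t * i n l := by rw [map_smul]; rfl
    simp only [Pi.zero_apply, sub_zero]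
    linear_combination e4 - e3
  have hs'2 : ∀ m n : N, mkq t N m = mkq t N n → s' m = s' n := by
    intro m n hmn
    obtain ⟨z, hz⟩ := (mkq_eq_iff t m n).1 hmn
    have : s' (m - n) = 0 := by rw [← hz, hs']
    rwa [map_sub, sub_eq_zero] at this
  let lift : Mq t N → N := Function.surjInv (mkq_surj t)
  have hlift : ∀ y, mkq t N (lift y) = y := Function.surjInv_eq (mkq_surj t)
  refine ⟨{ toFun := fun y => s' (lift y), map_add' := ?_, map_smul' := ?_ }, ?_⟩
  · intro y z
    rw [← map_add]
    apply hs'2
    rw [hlift, map_add, hlift, hlift]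
  · intro c y
    rw [RingHom.id_apply, ← map_smul]
    apply hs'2
    rw [hlift, ← algebraMap_smul A c (lift y), map_smul, hlift, algebraMap_smul]
  · intro y
    change projq t N (mkq (t^2) N (r (fun l => algebraMap R A (ρ (i (lift y) l))))) = y
    rw [projq_mkq]
    conv_rhs => rw [← hlift y, ← hri' (lift y)]
    rw [mkq_eq_iff]
    refine ⟨r (fun l => - β (i (lift y) l)), ?_⟩
    rw [← map_smul, ← map_sub]
    congr 1
    ext l
    simp only [Pi.smul_apply, smul_eq_mul, Pi.sub_apply]
    have e1 := hρ (i (lift y) l)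
    linear_combination e1

end linearity

end Run7.h629
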