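import Pool.Agent.Run7.h629.StepFive

namespace Run7.h629

open scoped TensorProduct

variable {R A : Type} [CommRing R] [CommRing A] [Algebra R A] {t : A} {C : ℕ → Type}
  [∀ n, AddCommGroup (C n)] [∀ n, Module A (C n)] [∀ n, Module.Finite A (C n)]
  [∀ n, Module.Projective A (C n)] [∀ n, Module R (C n)] [∀ n, IsScalarTower R A (C n)]
  {d : ∀ n, C (n+1) →ₗ[A] C n} {s : ∀ n, C n →ₗ[A] C (n+1)}

/-- All the data extracted from a null homotopy of multiplication by `t`. -/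
theorem exists_data [Subsingleton (C 0)] (L : ℕ) (hL : ∀ n, L ≤ n → Subsingleton (C n))
    (hfin : Finite (A ⧸ Ideal.span {t}))
    (ht : ∀ a : A, t * a = 0 → a = 0)
    (hS : ∀ a : A, ∃ r : R, ∃ b : A, a = algebraMap R A r + t * b)
    (hK : ∀ r : R, (∃ b : A, algebraMap R A r = t * b) → ∃ b : A, algebraMap R A r = t^2 * b)
    (hdd : ∀ n y, d n (d (n+1) y) = 0)
    (hds : ∀ n y, d (n+1) (s (n+1) y) + s n (d n y) = t • y) :
    ∃ (x : ∀ n, Mq t (C (n+1)) →ₗ[A] Mq t (C n)) (w : ∀ n, Mq t (C n) →ₗ[A] Mq t (C (n+1)))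
      (k : ℕ), 0 < k ∧ (∀ n, IsIdempotentElem (opa t C s x n ^ k)) ∧
      (∀ n y, mapq t (d n) (x (n+1) y) + x n (mapq t (d (n+1)) y) = 0) ∧
      (∀ n y, x (n+1) (mapq t (s (n+1)) y) + mapq t (s n) (x n y) + mapq t (d (n+1)) (w (n+1) y)
        + w n (mapq t (d n) y) = y) ∧
      (∀ n y, mapq t (d n) ((opa t C s x (n+1) ^ k) y) =
        (opa t C s x n ^ k) (mapq t (d n) y)) ∧
      ∀ ν : ℤ, (∀ P : MaximalSpectrum (A ⧸ Ideal.span {t}), ∑ n ∈ Finset.range L,
        (-1 : ℤ)^n * (rk P (LinearMap.range (toS (opa t C s x n ^ k))) : ℤ) = ν) →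
        ∑ n ∈ Finset.range L, (-1 : ℤ)^n • K0.cls A (C n) = 0 := by
  obtain ⟨x, w, i1, i2, i3, i4⟩ := exists_operators (R := R) t C d s ht hS hK hdd hds
  have hfinD : ∀ n, Finite (Mq t (C n)) := fun n => by
    have := finite_Mq t (C n)
    exact Module.finite_of_finite (A ⧸ Ideal.span {t})
  have hfinE : ∀ n, Finite (Module.End A (Mq t (C n))) := fun n =>
    Finite.of_injective (fun f => (f : Mq t (C n) → Mq t (C n))) DFunLike.coe_injective
  choose k hk0 hk using fun n => exists_pow_idem (opa t C s x n)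
  have hidem : ∀ n, IsIdempotentElem (opa t C s x n ^ (∏ i ∈ Finset.range L, k i)) := by
    intro n
    by_cases hn : n < L
    · have h1 : ∏ i ∈ Finset.range L, k i = k n * ∏ i ∈ (Finset.range L).erase n, k i :=
        (Finset.mul_prod_erase _ _ (Finset.mem_range.2 hn)).symm
      rw [h1]
      exact idem_pow_mul (hk n) (Finset.prod_pos (fun i _ => hk0 i))
    · have := hL n (by omega)
      exact Subsingleton.elim _ _
  have hK0 : 0 < ∏ i ∈ Finset.range L, k i := Finset.prod_pos (fun i _ => hk0 i)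
  obtain ⟨p1, p2, p3⟩ := opa_pow_properties t hds x w i1 i2 i3 i4
    (∏ i ∈ Finset.range L, k i)
  refine ⟨x, w, _, hK0, hidem, i1, i2, p1, ?_⟩
  intro ν hν
  exact class_of_idem L hL hfin ht hdd hds _ hidem p1 p2 (p3 hK0) ν hν

/-- The first step, when the quotient ring is local. -/
theorem step_one_local [Subsingleton (C 0)] (L : ℕ) (hL : ∀ n, L ≤ n → Subsingleton (C n))
    (hfin : Finite (A ⧸ Ideal.span {t})) (hloc : IsLocalRing (A ⧸ Ideal.span {t}))
    (ht : ∀ a : A, t * a = 0 → a = 0)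
    (hS : ∀ a : A, ∃ r : R, ∃ b : A, a = algebraMap R A r + t * b)
    (hK : ∀ r : R, (∃ b : A, algebraMap R A r = t * b) → ∃ b : A, algebraMap R A r = t^2 * b)
    (hdd : ∀ n y, d n (d (n+1) y) = 0)
    (hds : ∀ n y, d (n+1) (s (n+1) y) + s n (d n y) = t • y) :
    ∑ n ∈ Finset.range L, (-1 : ℤ)^n • K0.cls A (C n) = 0 := by
  obtain ⟨x, w, k, -, -, -, -, -, h⟩ := exists_data (R := R) L hL hfin ht hS hK hdd hds
  refine h (∑ n ∈ Finset.range L,
        (-1 : ℤ)^n * (rk ⟨IsLocalRing.maximalIdeal (A ⧸ Ideal.span {t}), inferInstance⟩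
          (LinearMap.range (toS (opa t C s x n ^ k))) : ℤ)) ?_
  intro P
  have : P = ⟨IsLocalRing.maximalIdeal (A ⧸ Ideal.span {t}), inferInstance⟩ := by
    ext1
    exact IsLocalRing.eq_maximalIdeal P.isMaximal
  rw [this]

end Run7.h629
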