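import Pool.Agent.Run7.h629.StepTwo

namespace Run7.h629

open scoped TensorProduct

section semischanuel

variable {R : Type*} [Ring R] {S : Type*} [Ring S] {σ : R →+* S} {M N W : Type*}
  [AddCommGroup M] [Module R M] [AddCommGroup N] [Module R N] [AddCommGroup W] [Module S W]

/-- The pullback of two semilinear maps. -/
def pullbS (f : M →ₛₗ[σ] W) (g : N →ₛₗ[σ] W) : Submodule R (M × N) where
  carrier := {x | f x.1 = g x.2}
  add_mem' {a b} ha hb := by
    change f (a.1 + b.1) = g (a.2 + b.2)
    have ha' : f a.1 = g a.2 := ha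
    have hb' : f b.1 = g b.2 := hb
    rw [map_add, map_add, ha', hb']
  zero_mem' := by
    change f 0 = g 0
    rw [map_zero, map_zero]
  smul_mem' r a ha := by
    change f (r • a.1) = g (r • a.2)
    have ha' : f a.1 = g a.2 := ha
    rw [map_smulₛₗ, map_smulₛₗ, ha']

/-- Schanuel's lemma, for semilinear surjections. -/
theorem schanuelS [Module.Projective R M] [Module.Projective R N] (f : M →ₛₗ[σ] W)
    (g : N →ₛₗ[σ] W) (hf : Function.Surjective f) (hg : Function.Surjective g) :
    Nonempty ((LinearMap.ker f × N) ≃ₗ[R] (LinearMap.ker g × M)) := by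
  let p1 : pullbS f g →ₗ[R] M := LinearMap.fst R M N ∘ₗ (pullbS f g).subtype
  let p2 : pullbS f g →ₗ[R] N := LinearMap.snd R M N ∘ₗ (pullbS f g).subtype
  have h1 : Function.Surjective p1 := fun m => by
    obtain ⟨n, hn⟩ := hg (f m)
    exact ⟨⟨(m, n), hn.symm⟩, rfl⟩
  have h2 : Function.Surjective p2 := fun n => by
    obtain ⟨m, hm⟩ := hf (g n)
    exact ⟨⟨(m, n), hm⟩, rfl⟩
  obtain ⟨e1⟩ := nonempty_split p1 h1
  obtain ⟨e2⟩ := nonempty_split p2 h2
  have k1 : LinearMap.ker p1 ≃ₗ[R] LinearMap.ker g :=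
    { toFun := fun x => ⟨x.1.1.2, by
        have h3 : f x.1.1.1 = g x.1.1.2 := x.1.2
        have h4 : x.1.1.1 = 0 := x.2
        rw [LinearMap.mem_ker, ← h3, h4, map_zero]⟩
      map_add' := fun _ _ => rfl
      map_smul' := fun _ _ => rfl
      invFun := fun n => ⟨⟨(0, n.1), by
        have h5 : g n.1 = 0 := n.2
        change f 0 = g n.1
        rw [h5, map_zero]⟩, rfl⟩
      left_inv := fun x => by
        have h4 : x.1.1.1 = 0 := x.2
        ext
        · exact h4.symm
        · rfl
      right_inv := fun n => rfl }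
  have k2 : LinearMap.ker p2 ≃ₗ[R] LinearMap.ker f :=
    { toFun := fun x => ⟨x.1.1.1, by
        have h3 : f x.1.1.1 = g x.1.1.2 := x.1.2
        have h4 : x.1.1.2 = 0 := x.2
        rw [LinearMap.mem_ker, h3, h4, map_zero]⟩
      map_add' := fun _ _ => rfl
      map_smul' := fun _ _ => rfl
      invFun := fun n => ⟨⟨(n.1, 0), by
        have h5 : f n.1 = 0 := n.2
        change f n.1 = g 0
        rw [h5, map_zero]⟩, rfl⟩
      left_inv := fun x => by
        have h4 : x.1.1.2 = 0 := x.2
        ext
        · rfl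
        · exact h4.symm
      right_inv := fun n => rfl }
  exact ⟨(k2.symm.prodCongr (LinearEquiv.refl R N)).trans
    (e2.symm.trans (e1.trans (k1.prodCongr (LinearEquiv.refl R M))))⟩

end semischanuel

section hasclass

variable {A S : Type} [Ring A] [Ring S] (σ : A →+* S)

/-- The module `E` has a resolution of length one by finitely generated projective modules
over `A`, with Euler class `k`. -/
def HasClass (E : Type) [AddCommGroup E] [Module S E] (k : K0 A) : Prop :=
  ∃ (N : FGProj A) (g : N.carrier →ₛₗ[σ] E), Function.Surjective g ∧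
    ∃ (_ : Module.Finite A (LinearMap.ker g)) (_ : Module.Projective A (LinearMap.ker g)),
      k = K0.cls A N.carrier - K0.cls A (LinearMap.ker g)

variable {σ} {E E' : Type} [AddCommGroup E] [Module S E] [AddCommGroup E'] [Module S E']

lemma HasClass.mk' (N : Type) [AddCommGroup N] [Module A N] [Module.Finite A N]
    [Module.Projective A N] (g : N →ₛₗ[σ] E) (hg : Function.Surjective g)
    (K : Type) [AddCommGroup K] [Module A K] [Module.Finite A K]
    [Module.Projective A K] (e : LinearMap.ker g ≃ₗ[A] K) :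
    HasClass σ E (K0.cls A N - K0.cls A K) := by
  have h1 : Module.Finite A (LinearMap.ker g) := Module.Finite.equiv e.symm
  have h2 : Module.Projective A (LinearMap.ker g) := Module.Projective.of_equiv e.symm
  refine ⟨⟨N⟩, g, hg, h1, h2, ?_⟩
  rw [K0.cls_congr e]

lemma HasClass.unique {k k' : K0 A} (h : HasClass σ E k) (h' : HasClass σ E k') : k = k' := by
  obtain ⟨N, g, hg, i1, i2, rfl⟩ := h
  obtain ⟨N', g', hg', i1', i2', rfl⟩ := h'
  obtain ⟨e⟩ := schanuelS g g' hg hg'
  have h1 := K0.cls_congr e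
  rw [K0.cls_prod, K0.cls_prod] at h1
  rw [sub_eq_sub_iff_add_eq_add, add_comm, ← h1, add_comm]

lemma HasClass.congr {k : K0 A} (h : HasClass σ E k) (e : E ≃ₗ[S] E') : HasClass σ E' k := by
  obtain ⟨N, g, hg, i1, i2, rfl⟩ := h
  refine HasClass.mk' N.carrier (e.toLinearMap.comp g) (e.surjective.comp hg)
    (LinearMap.ker g) (LinearEquiv.ofEq _ _ ?_)
  ext x
  simp

lemma HasClass.prod {k k' : K0 A} (h : HasClass σ E k) (h' : HasClass σ E' k') :
    HasClass σ (E × E') (k + k') := by
  obtain ⟨N, g, hg, i1, i2, rfl⟩ := h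
  obtain ⟨N', g', hg', i1', i2', rfl⟩ := h'
  let G : (N.carrier × N'.carrier) →ₛₗ[σ] (E × E') :=
    { toFun := fun x => (g x.1, g' x.2)
      map_add' := fun x y => by ext <;> simp
      map_smul' := fun r x => by ext <;> simp }
  have hG : Function.Surjective G := fun ⟨y, y'⟩ => by
    obtain ⟨x, rfl⟩ := hg y
    obtain ⟨x', rfl⟩ := hg' y'
    exact ⟨(x, x'), rfl⟩
  have e : LinearMap.ker G ≃ₗ[A] (LinearMap.ker g × LinearMap.ker g') :=
    { toFun := fun x => (⟨x.1.1, congrArg Prod.fst x.2⟩, ⟨x.1.2, congrArg Prod.snd x.2⟩)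
      map_add' := fun _ _ => rfl
      map_smul' := fun _ _ => rfl
      invFun := fun y => ⟨(y.1.1, y.2.1), Prod.ext y.1.2 y.2.2⟩
      left_inv := fun _ => rfl
      right_inv := fun _ => rfl }
  have := HasClass.mk' (N.carrier × N'.carrier) G hG _ e
  rw [K0.cls_prod, K0.cls_prod] at this
  convert this using 1
  abel

/-- If a module with a class is decomposed as a direct sum then both summands have classes. -/
lemma HasClass.of_prod {k : K0 A} (h : HasClass σ (E × E') k) :
    ∃ k₁, HasClass σ E k₁ ∧ HasClass σ E' (k - k₁) := by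
  obtain ⟨N, g, hg, i1, i2, rfl⟩ := h
  let π : N.carrier →ₛₗ[σ] E := (LinearMap.fst S E E').comp g
  let π' : N.carrier →ₛₗ[σ] E' := (LinearMap.snd S E E').comp g
  have hπ : Function.Surjective π := fun y => by
    obtain ⟨x, hx⟩ := hg (y, 0)
    exact ⟨x, congrArg Prod.fst hx⟩
  have hπ' : Function.Surjective π' := fun y => by
    obtain ⟨x, hx⟩ := hg (0, y)
    exact ⟨x, congrArg Prod.snd hx⟩
  let G : (N.carrier × N.carrier) →ₛₗ[σ] (E × E') :=
    { toFun := fun x => (π x.1, π' x.2)
      map_add' := fun x y => by ext <;> simp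
      map_smul' := fun r x => by ext <;> simp }
  have hG : Function.Surjective G := fun ⟨y, y'⟩ => by
    obtain ⟨x, rfl⟩ := hπ y
    obtain ⟨x', rfl⟩ := hπ' y'
    exact ⟨(x, x'), rfl⟩
  have e : LinearMap.ker G ≃ₗ[A] (LinearMap.ker π × LinearMap.ker π') :=
    { toFun := fun x => (⟨x.1.1, congrArg Prod.fst x.2⟩, ⟨x.1.2, congrArg Prod.snd x.2⟩)
      map_add' := fun _ _ => rfl
      map_smul' := fun _ _ => rfl
      invFun := fun y => ⟨(y.1.1, y.2.1), Prod.ext y.1.2 y.2.2⟩
      left_inv := fun _ => rfl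
      right_inv := fun _ => rfl }
  obtain ⟨f⟩ := schanuelS G g hG hg
  let F : ((LinearMap.ker π × LinearMap.ker π') × N.carrier) ≃ₗ[A]
      (LinearMap.ker g × (N.carrier × N.carrier)) :=
    (e.symm.prodCongr (LinearEquiv.refl A N.carrier)).trans f
  have j1 : Module.Finite A ((LinearMap.ker π × LinearMap.ker π') × N.carrier) :=
    Module.Finite.equiv F.symm
  have j2 : Module.Projective A ((LinearMap.ker π × LinearMap.ker π') × N.carrier) :=
    Module.Projective.of_equiv F.symm
  have j3 : Module.Finite A (LinearMap.ker π × LinearMap.ker π') :=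
    finite_of_prod (N := N.carrier)
  have j4 : Module.Projective A (LinearMap.ker π × LinearMap.ker π') :=
    projective_of_prod (N := N.carrier)
  have j5 : Module.Finite A (LinearMap.ker π) := finite_of_prod (N := LinearMap.ker π')
  have j6 : Module.Projective A (LinearMap.ker π) :=
    projective_of_prod (N := LinearMap.ker π')
  have j7 : Module.Finite A (LinearMap.ker π' × LinearMap.ker π) :=
    Module.Finite.equiv (LinearEquiv.prodComm A _ _)
  have j8 : Module.Projective A (LinearMap.ker π' × LinearMap.ker π) :=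
    Module.Projective.of_equiv (LinearEquiv.prodComm A (LinearMap.ker π) (LinearMap.ker π'))
  have j9 : Module.Finite A (LinearMap.ker π') := finite_of_prod (N := LinearMap.ker π)
  have j10 : Module.Projective A (LinearMap.ker π') :=
    projective_of_prod (N := LinearMap.ker π)
  have hF := K0.cls_congr F
  rw [K0.cls_prod, K0.cls_prod, K0.cls_prod, K0.cls_prod] at hF
  refine ⟨K0.cls A N.carrier - K0.cls A (LinearMap.ker π), ⟨N, π, hπ, j5, j6, rfl⟩,
    ⟨N, π', hπ', j9, j10, ?_⟩⟩
  have h2 : K0.cls A (LinearMap.ker π) + K0.cls A (LinearMap.ker π') =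
      K0.cls A (LinearMap.ker g) + K0.cls A N.carrier := by
    have h3 : (K0.cls A (LinearMap.ker π) + K0.cls A (LinearMap.ker π')) + K0.cls A N.carrier =
      (K0.cls A (LinearMap.ker g) + K0.cls A N.carrier) + K0.cls A N.carrier := by
      rw [hF]; abel
    exact add_right_cancel h3
  have h4 : K0.cls A (LinearMap.ker g) = K0.cls A (LinearMap.ker π) +
      K0.cls A (LinearMap.ker π') - K0.cls A N.carrier := by
    rw [h2]; abel
  rw [h4]
  abel

end hasclass

end Run7.h629
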