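import Pool.Agent.Run7.h629.StepOne

namespace Run7.h629

section core

variable {R A : Type*} [CommRing R] [CommRing A] [Algebra R A] (t : A)
variable (C : ℕ → Type*) [∀ n, AddCommGroup (C n)] [∀ n, Module A (C n)]
  [∀ n, Module R (C n)] [∀ n, IsScalarTower R A (C n)]
  [∀ n, Module.Finite A (C n)] [∀ n, Module.Projective A (C n)]
  (d : ∀ n, C (n+1) →ₗ[A] C n) (s : ∀ n, C n →ₗ[A] C (n+1))

/-- The basic operators on the quotient complex. -/
theorem exists_operators
    (ht : ∀ a : A, t * a = 0 → a = 0)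
    (hS : ∀ a : A, ∃ r : R, ∃ b : A, a = algebraMap R A r + t * b)
    (hK : ∀ r : R, (∃ b : A, algebraMap R A r = t * b) → ∃ b : A, algebraMap R A r = t^2 * b)
    (hdd : ∀ n y, d n (d (n+1) y) = 0)
    (hds : ∀ n y, d (n+1) (s (n+1) y) + s n (d n y) = t • y) :
    ∃ (x : ∀ n, Mq t (C (n+1)) →ₗ[A] Mq t (C n)) (w : ∀ n, Mq t (C n) →ₗ[A] Mq t (C (n+1))),
      (∀ n y, mapq t (d n) (x (n+1) y) + x n (mapq t (d (n+1)) y) = 0) ∧
      (∀ n y, x (n+1) (mapq t (s (n+1)) y) + mapq t (s n) (x n y) + mapq t (d (n+1)) (w (n+1) y)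
        + w n (mapq t (d n) y) = y) ∧
      (∀ n z, mapq t (d (n+1)) z = 0 → ∃ c, d n c = 0 ∧ mkq t (C (n+1)) c = x (n+1) z) ∧
      (∀ n c, d n c = 0 → ∃ u, x n (mkq t (C (n+1)) c) = mapq t (d n) u) := by
  have hinj : ∀ n, Function.Injective (thetaq t (C n)) := fun n => thetaq_injective t ht
  choose σ hσ using fun n => exists_section (R := R) (N := C n) t hS hK
  have hx0 : ∀ n, ∃ x : Mq t (C (n+1)) →ₗ[R] Mq t (C n), ∀ y, thetaq t (C n) (x y) =
      mapq (t^2) (d n) (σ (n+1) y) - σ n (mapq t (d n) y) := by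
    intro n
    obtain ⟨x, hx⟩ := exists_div t (hinj n)
      ((mapq (t^2) (d n)).restrictScalars R ∘ₗ σ (n+1) -
        σ n ∘ₗ (mapq t (d n)).restrictScalars R) (by
          intro y
          simp only [LinearMap.sub_apply, LinearMap.comp_apply, LinearMap.restrictScalars_apply]
          rw [map_sub, projq_mapq, hσ, hσ, sub_self])
    exact ⟨x, fun y => hx y⟩
  have hw0 : ∀ n, ∃ w : Mq t (C n) →ₗ[R] Mq t (C (n+1)), ∀ y, thetaq t (C (n+1)) (w y) =
      mapq (t^2) (s n) (σ n y) - σ (n+1) (mapq t (s n) y) := by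
    intro n
    obtain ⟨x, hx⟩ := exists_div t (hinj (n+1))
      ((mapq (t^2) (s n)).restrictScalars R ∘ₗ σ n -
        σ (n+1) ∘ₗ (mapq t (s n)).restrictScalars R) (by
          intro y
          simp only [LinearMap.sub_apply, LinearMap.comp_apply, LinearMap.restrictScalars_apply]
          rw [map_sub, projq_mapq, hσ, hσ, sub_self])
    exact ⟨x, fun y => hx y⟩
  choose x hx using hx0
  choose w hw using hw0
  have hddq : ∀ (r : A) n y, mapq r (d n) (mapq r (d (n+1)) y) = 0 := by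
    intro r n y
    obtain ⟨y, rfl⟩ := mkq_surj r y
    rw [mapq_mkq, mapq_mkq, hdd, map_zero]
  have hdsq : ∀ (r : A) n y, mapq r (d (n+1)) (mapq r (s (n+1)) y) + mapq r (s n) (mapq r (d n) y)
      = t • y := by
    intro r n y
    obtain ⟨y, rfl⟩ := mkq_surj r y
    rw [mapq_mkq, mapq_mkq, mapq_mkq, mapq_mkq, ← map_add, hds, map_smul]
  have hdsq0 : ∀ n y, mapq t (d (n+1)) (mapq t (s (n+1)) y) = - mapq t (s n) (mapq t (d n) y) := by
    intro n y
    have := hdsq t n y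
    rw [smul_Mq] at this
    exact eq_neg_of_add_eq_zero_left this
  have i1 : ∀ n y, mapq t (d n) (x (n+1) y) + x n (mapq t (d (n+1)) y) = 0 := by
    intro n y
    apply hinj
    rw [map_add, ← mapq_thetaq, hx, hx, map_sub, hddq, hddq, map_zero, map_zero]
    abel
  have i2 : ∀ n y, x (n+1) (mapq t (s (n+1)) y) + mapq t (s n) (x n y)
        + mapq t (d (n+1)) (w (n+1) y) + w n (mapq t (d n) y) = y := by
    intro n y
    apply hinj
    rw [map_add, map_add, map_add, ← mapq_thetaq, ← mapq_thetaq, hx, hx, hw, hw, map_sub,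
      map_sub, hdsq0, map_neg]
    have h1 := hdsq (t^2) n (σ (n+1) y)
    rw [← thetaq_projq, hσ] at h1
    rw [← h1]
    abel
  have i3 : ∀ n z, mapq t (d (n+1)) z = 0 → ∃ c, d n c = 0 ∧ mkq t (C (n+1)) c = x (n+1) z := by
    intro n z hz
    obtain ⟨c', hc'⟩ := mkq_surj (t^2) (σ (n+2) z)
    obtain ⟨c₁, hc₁⟩ := mkq_surj t (x (n+1) z)
    have h1 := hx (n+1) z
    rw [hz, map_zero, sub_zero, ← hc', ← hc₁, thetaq_mkq, mapq_mkq, mkq_eq_iff] at h1
    obtain ⟨c₂, hc₂⟩ := h1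
    refine ⟨c₁ - t • c₂, ?_, ?_⟩
    · apply smul_cancel_of_projective t ht
      rw [smul_zero, ← map_smul, smul_sub, smul_smul, ← pow_two, hc₂, sub_sub_cancel, hdd]
    · rw [map_sub, hc₁, map_smul, smul_Mq, sub_zero]
  have i4 : ∀ n c, d n c = 0 → ∃ u, x n (mkq t (C (n+1)) c) = mapq t (d n) u := by
    intro n c hc
    have h1 : projq t (C (n+1)) (σ (n+1) (mkq t _ c) - mkq (t^2) _ c) = 0 := by
      rw [map_sub, hσ, projq_mkq, sub_self]
    obtain ⟨u, hu⟩ := (projq_eq_zero_iff t _).1 h1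
    refine ⟨u, ?_⟩
    apply hinj
    rw [hx, mapq_mkq, hc, map_zero, map_zero, sub_zero, ← mapq_thetaq, hu, map_sub, mapq_mkq,
      hc, map_zero, sub_zero]
  refine ⟨fun n => toLin t hS (x n), fun n => toLin t hS (w n), i1, i2, i3, i4⟩

end core

/-- In a finite monoid some positive power of each element is idempotent. -/
lemma exists_pow_idem {G : Type*} [Monoid G] [Finite G] (a : G) :
    ∃ k, 0 < k ∧ IsIdempotentElem (a ^ k) := by
  obtain ⟨i, j, hij, h⟩ := Finite.exists_ne_map_eq_of_infinite (fun n : ℕ => a ^ n)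
  wlog hlt : i < j generalizing i j
  · exact this j i hij.symm h.symm (by omega)
  obtain ⟨p, hp, rfl⟩ : ∃ p, 0 < p ∧ j = i + p := ⟨j - i, by omega, by omega⟩
  have h1 : ∀ n, i ≤ n → a ^ n = a ^ (n + p) := by
    intro n hn
    obtain ⟨m, rfl⟩ := Nat.exists_eq_add_of_le hn
    have h' : a ^ i = a ^ (i + p) := h
    rw [pow_add, h', ← pow_add]
    congr 1
    omega
  have h2 : ∀ m n, i ≤ n → a ^ n = a ^ (n + m * p) := by
    intro m
    induction m with
    | zero => intro n _; simp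
    | succ m ih =>
      intro n hn
      rw [ih n hn, h1 _ (by omega)]
      congr 1
      ring
  refine ⟨(i + 1) * p, by positivity, ?_⟩
  have h3 : i ≤ (i + 1) * p := by nlinarith
  change a ^ ((i+1) * p) * a ^ ((i+1) * p) = a ^ ((i+1) * p)
  rw [← pow_add, ← h2 (i+1) _ h3]

lemma idem_pow_mul {G : Type*} [Monoid G] {a : G} {k : ℕ} (h : IsIdempotentElem (a ^ k)) {m : ℕ}
    (hm : 0 < m) : IsIdempotentElem (a ^ (k * m)) := by
  have : a ^ (k * m) = a ^ k := by
    rw [pow_mul]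
    exact h.pow_eq (by omega)
  rw [this]
  exact h

end Run7.h629
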